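import Mathlib

/-!
# Cycles on smooth proper varieties over a number field and on their regular models

The data and their known formal properties, in several structures.
-/

set_option autoImplicit false

namespace Pool.Agent.L0h15.OL

/-- a vector space over `ℚ` -/
structure Sp where
  /-- the elements -/
  carrier : Type
  [grp : AddCommGroup carrier]
  [mod : Module ℚ carrier]

attribute [instance] Sp.grp Sp.mod

instance : CoeSort Sp Type := ⟨Sp.carrier⟩

/-- the linear maps -/
def Lin (V W : Sp) : Type := V →ₗ[ℚ] W

/-- the value of a linear map -/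
def ap {V W : Sp} (f : Lin V W) (x : V) : W := (show V →ₗ[ℚ] W from f) x

/-- the identity -/
def idL (V : Sp) : Lin V V := (LinearMap.id : V →ₗ[ℚ] V)

/-- the composition `f ∘ g` -/
def compL {U V W : Sp} (f : Lin V W) (g : Lin U V) : Lin U W :=
  (show V →ₗ[ℚ] W from f) ∘ₗ (show U →ₗ[ℚ] V from g)

/-- the subspaces -/
def Sub (V : Sp) : Type := Submodule ℚ V

/-- the element `x` is in the subspace `S` -/
def inn {V : Sp} (S : Sub V) (x : V) : Prop := x ∈ (show Submodule ℚ V from S)

/-- the subspace generated by the elements with the property `p` -/
def gener {V : Sp} (p : V → Prop) : Sub V := Submodule.span ℚ {x | p x}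

/-- the subspace `L` is of finite codimension in `S` (if it is contained in `S`) -/
def FiniteCodim {V : Sp} (S L : Sub V) : Prop :=
  Module.Finite ℚ ((show Submodule ℚ V from S) ⧸
    (show Submodule ℚ V from L).comap (show Submodule ℚ V from S).subtype)

/-- the bilinear forms with rational values -/
def Form (V W : Sp) : Type := V →ₗ[ℚ] W →ₗ[ℚ] ℚ

/-- the value of a bilinear form -/
def ev {V W : Sp} (B : Form V W) (x : V) (y : W) : ℚ := (show V →ₗ[ℚ] W →ₗ[ℚ] ℚ from B) x y

/-- the bilinear form `B` is given by maps `a`, `b` to finite-dimensional vector spaces in duality over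
the field `F` of characteristic zero -/
def Through {V W : Sp} (B : Form V W) (F : Type) [Field F] [CharZero F] (n : ℕ)
    (a : V →ₗ[ℚ] (Fin n → F)) (b : W →ₗ[ℚ] (Fin n → F)) : Prop :=
  ∀ z w, ((ev B z w : ℚ) : F) = ∑ k, a z k * b w k

/-- the data -/
structure Cycles where
  /-- the smooth proper varieties over the number field `E`, of pure dimension -/
  Var : Type
  /-- the dimension -/
  dim : Var → ℕ
  /-- the sum of the Chow groups `Ch^i(X)` with rational coefficients -/
  Ch : Var → Sp
  /-- the component in `Ch^i(X)` -/
  codim : ∀ X, ℤ → Lin (Ch X) (Ch X)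
  /-- the homologically trivial classes -/
  hom : ∀ X, Sub (Ch X)
  /-- the pairs of maps `(γ_*, γ^*)` which are given by the correspondences `γ` in `Ch (Y × X)` -/
  Corr : ∀ {Y X}, Lin (Ch Y) (Ch X) → Lin (Ch X) (Ch Y) → Prop
  /-- the regular schemes, proper and flat over the ring of integers of `E`, with smooth generic
  fibre of pure dimension -/
  Model : Type
  /-- the generic fibre -/
  gen : Model → Var
  /-- the sum of the Chow groups of the model with rational coefficients -/
  ChM : Model → Sp
  /-- the component in `Ch^i` -/
  codimM : ∀ M, ℤ → Lin (ChM M) (ChM M)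
  /-- the restriction to the generic fibre -/
  res : ∀ M, Lin (ChM M) (Ch (gen M))
  /-- the finite places of `E` -/
  Place : Type
  /-- the sum of the Chow groups of the closed fibre at `v` with rational coefficients -/
  Fib : Model → Place → Sp
  /-- the component of codimension `i` in the model -/
  codimF : ∀ M v, ℤ → Lin (Fib M v) (Fib M v)
  /-- the class in the model of a cycle in a closed fibre -/
  incl : ∀ M v, Lin (Fib M v) (ChM M)
  /-- the intersection number of a cycle on the model with a cycle in the fibre at `v`; multiplied by
  the logarithm of the norm of `v` it is their arithmetic intersection number, if the first cycle is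
  homologically trivial on the generic fibre -/
  int : ∀ M v, Form (ChM M) (Fib M v)

namespace Cycles

variable (T : Cycles)

/-- the known properties of the Chow groups and of the correspondences of smooth proper varieties -/
structure Varieties : Prop where
  codim_idem : ∀ X i c, ap (T.codim X i) (ap (T.codim X i) c) = ap (T.codim X i) c
  codim_ne : ∀ X i j c, i ≠ j → ap (T.codim X i) (ap (T.codim X j) c) = 0
  codim_sum : ∀ X c, ∑ i ∈ Finset.range (T.dim X + 1), ap (T.codim X i) c = c
  hom_codim : ∀ X i c, inn (T.hom X) c → inn (T.hom X) (ap (T.codim X i) c)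
  /-- the diagonal -/
  diagonal : ∀ X, T.Corr (idL (T.Ch X)) (idL (T.Ch X))
  /-- composition of correspondences -/
  comp : ∀ {X Y Z} (f : Lin (T.Ch Y) (T.Ch X)) f' (g : Lin (T.Ch Z) (T.Ch Y)) g',
    T.Corr f f' → T.Corr g g' → T.Corr (compL f g) (compL g' f')
  /-- the transpose of a correspondence -/
  transpose : ∀ {X Y} (f : Lin (T.Ch Y) (T.Ch X)) f', T.Corr f f' → T.Corr f' f
  /-- correspondences preserve homologically trivial classes -/
  corr_hom : ∀ {X Y} (f : Lin (T.Ch Y) (T.Ch X)) f', T.Corr f f' → ∀ c, inn (T.hom Y) c →
    inn (T.hom X) (ap f c)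

/-- the known properties of the Chow groups of the models and of their closed fibres -/
structure Models : Prop where
  codimM_idem : ∀ M i z, ap (T.codimM M i) (ap (T.codimM M i) z) = ap (T.codimM M i) z
  res_surjective : ∀ M c, ∃ z, ap (T.res M) z = c
  res_codim : ∀ M i z, ap (T.res M) (ap (T.codimM M i) z) = ap (T.codim (T.gen M) i) (ap (T.res M) z)
  codimF_idem : ∀ M v i w, ap (T.codimF M v i) (ap (T.codimF M v i) w) = ap (T.codimF M v i) w
  /-- the localisation sequence -/
  localisation : ∀ M z, ap (T.res M) z = 0 ↔ inn (gener fun x => ∃ v y, x = ap (T.incl M v) y) z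
  /-- only complementary codimensions contribute -/
  int_codim : ∀ M v i z w, ev (T.int M v) (ap (T.codimM M i) z) w =
    ev (T.int M v) z (ap (T.codimF M v (T.dim (T.gen M) + 1 - i)) w)
  /-- different fibres are disjoint -/
  int_disjoint : ∀ M v v', v ≠ v' → ∀ y w, ev (T.int M v) (ap (T.incl M v') y) w = 0
  /-- good reduction: outside of a finite set of places, a class which is homologically trivial on the
  generic fibre is homologically trivial on the fibre at `v`, so its intersection numbers with all
  cycles in this fibre are zero -/
  good : ∀ M, ∃ S : Finset T.Place, ∀ v ∉ S, ∀ z, inn (T.hom (T.gen M)) (ap (T.res M) z) →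
    ∀ w, ev (T.int M v) z w = 0
  /-- the intersection numbers of cycles with cycles in the fibre at `v` are given by the classes of
  the cycles in the (finite-dimensional) `ℓ`-adic cohomology and homology of the fibre -/
  cohomology : ∀ M v, ∃ (F : Type) (_ : Field F) (_ : CharZero F) (n : ℕ)
    (a : T.ChM M →ₗ[ℚ] (Fin n → F)) (b : T.Fib M v →ₗ[ℚ] (Fin n → F)), Through (T.int M v) F n a b

/-- `X` is a retract of `Y`: there are correspondences `a` from `X` to `Y`, which increases the
codimension by `k`, and `b` from `Y` to `X` with `b ∘ a = 1` (for the maps which they define and for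
their transposes) -/
def Retract (X Y : T.Var) (k : ℤ) : Prop :=
  ∃ (a : Lin (T.Ch X) (T.Ch Y)) (a' : Lin (T.Ch Y) (T.Ch X)) (b : Lin (T.Ch Y) (T.Ch X))
    (b' : Lin (T.Ch X) (T.Ch Y)), T.Corr a a' ∧ T.Corr b b' ∧ (∀ c, ap b (ap a c) = c) ∧
    (∀ c, ap a' (ap b' c) = c) ∧
    ∀ i c, ap (T.codim Y (i + k)) (ap a c) = ap a (ap (T.codim X i) c)

/-- the functoriality for morphisms of models, and the existence of regular models -/
structure Functoriality where
  /-- morphisms of models over the ring of integers -/
  Mor : T.Model → T.Model → Type
  /-- inverse images -/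
  pull : ∀ {M N}, Mor M N → Lin (T.ChM N) (T.ChM M)
  /-- direct images -/
  push : ∀ {M N}, Mor M N → Lin (T.ChM M) (T.ChM N)
  /-- inverse images for the generic fibres -/
  pullG : ∀ {M N}, Mor M N → Lin (T.Ch (T.gen N)) (T.Ch (T.gen M))
  /-- direct images for the generic fibres -/
  pushG : ∀ {M N}, Mor M N → Lin (T.Ch (T.gen M)) (T.Ch (T.gen N))
  /-- the graph of a morphism -/
  graph : ∀ {M N} (f : Mor M N), T.Corr (pushG f) (pullG f)
  /-- inverse images for the closed fibres -/
  pullF : ∀ {M N}, Mor M N → ∀ v, Lin (T.Fib N v) (T.Fib M v)
  /-- direct images for the closed fibres -/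
  pushF : ∀ {M N}, Mor M N → ∀ v, Lin (T.Fib M v) (T.Fib N v)
  res_pull : ∀ {M N} (f : Mor M N) z, ap (T.res M) (ap (pull f) z) = ap (pullG f) (ap (T.res N) z)
  res_push : ∀ {M N} (f : Mor M N) z, ap (T.res N) (ap (push f) z) = ap (pushG f) (ap (T.res M) z)
  /-- the projection formula -/
  int_push : ∀ {M N} (f : Mor M N) v z w,
    ev (T.int N v) (ap (push f) z) w = ev (T.int M v) z (ap (pullF f v) w)
  /-- the projection formula -/
  int_pull : ∀ {M N} (f : Mor M N) v z w,
    ev (T.int M v) (ap (pull f) z) w = ev (T.int N v) z (ap (pushF f v) w)
  /-- alterations (de Jong): every integral closed subscheme of a product of two models which is flat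
  over the ring of integers is dominated by a regular model, which is generically finite over it; so
  the correspondences are combinations of those given by regular models -/
  alteration : ∀ (M N : T.Model) (f : Lin (T.Ch (T.gen M)) (T.Ch (T.gen N))) f', T.Corr f f' →
    ∃ (n : ℕ) (r : Fin n → ℚ) (P : Fin n → T.Model) (p : ∀ k, Mor (P k) M) (q : ∀ k, Mor (P k) N),
      (∀ c, ap f c = ∑ k, r k • ap (pushG (q k)) (ap (pullG (p k)) c)) ∧
      ∀ c, ap f' c = ∑ k, r k • ap (pushG (p k)) (ap (pullG (q k)) c)
  /-- alterations (de Jong): every variety is dominated by the generic fibre of a regular model, of the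
  same dimension and generically finite over it -/
  cover : ∀ X, ∃ M, T.dim (T.gen M) = T.dim X ∧ T.Retract X (T.gen M) 0

/-- `S` contains, for the variety `X`, a model of a variety of the same dimension such that `X` is a
retract of this variety (for example a regular model with some further property of a variety which is
generically finite over `X`) -/
def Dominates (S : Set T.Model) (X : T.Var) : Prop :=
  ∃ M, M ∈ S ∧ T.dim (T.gen M) = T.dim X ∧ T.Retract X (T.gen M) 0

/-- projective varieties, products with a projective line and hypersurface sections -/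
structure Lefschetz where
  /-- the projective varieties -/
  Proj : T.Var → Prop
  /-- every variety is dominated by a projective one of the same dimension, generically finite over
  it -/
  cover : ∀ X, ∃ Y, Proj Y ∧ T.dim Y = T.dim X ∧ T.Retract X Y 0
  /-- the product with a projective line: cycles `c × point` and the projection to `X` -/
  line : ∀ X, ∃ Y, T.dim Y = T.dim X + 1 ∧ T.Retract X Y 1
  /-- the embeddings of varieties as smooth hypersurface sections, for an ample line bundle -/
  Sect : T.Var → T.Var → Type
  sect_dim : ∀ {Y X}, Sect Y X → T.dim Y + 1 = T.dim X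
  /-- the direct image under such an embedding -/
  inc : ∀ {Y X}, Sect Y X → Lin (T.Ch Y) (T.Ch X)
  /-- the inverse image -/
  inc' : ∀ {Y X}, Sect Y X → Lin (T.Ch X) (T.Ch Y)
  inc_corr : ∀ {Y X} (s : Sect Y X), T.Corr (inc s) (inc' s)
  /-- if `2 e < dim X`, then every cycle of dimension `e` on the projective variety `X` is rationally
  equivalent, with rational coefficients, to a combination of disjoint smooth subvarieties (Kleiman),
  which is contained in some smooth hypersurface section (Bertini's theorem) -/
  bertini : ∀ X, Proj X → ∀ e : ℕ, 2 * e < T.dim X → ∀ c, ap (T.codim X (T.dim X - e)) c = c →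
    ∃ (Y : T.Var) (s : Sect Y X) (c' : T.Ch Y),
      ap (T.codim Y (T.dim Y - e)) c' = c' ∧ ap (inc s) c' = c
  /-- the Lefschetz hyperplane theorem, in homology of degree `2 e` less than the dimension of the
  section -/
  lefschetz : ∀ {Y X} (s : Sect Y X) (e : ℕ), 2 * e < T.dim Y → ∀ c',
    ap (T.codim Y (T.dim Y - e)) c' = c' → inn (T.hom X) (ap (inc s) c') → inn (T.hom Y) c'

/-- the regular models of curves -/
structure Curves where
  /-- the models of curves -/
  curve : T.Model → Prop
  /-- Zariski's lemma: in a fibre of a model of a curve, a cycle whose intersection numbers with all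
  cycles in the fibre are zero is a combination of the fibres `Φ j` of the connected components and of
  points; a class which is homologically trivial on the curve is of degree zero on each component, so
  its intersection numbers with `Φ j` and with points are zero -/
  zariski : ∀ M, curve M → ∀ v, ∃ (n : ℕ) (Φ : Fin n → T.Fib M v) (Pt : Sub (T.Fib M v)),
    (∀ w, (∀ y, ev (T.int M v) (ap (T.incl M v) y) w = 0) →
      ∃ (r : Fin n → ℚ) (u : T.Fib M v), inn Pt u ∧ w = ∑ j, r j • Φ j + u) ∧
    (∀ z, inn (T.hom (T.gen M)) (ap (T.res M) z) → ∀ j, ev (T.int M v) z (Φ j) = 0) ∧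
    ∀ z, inn (T.hom (T.gen M)) (ap (T.res M) z) → ∀ u, inn Pt u → ev (T.int M v) z u = 0

/-- the class `c` on the generic fibre has a lift to the model which is orthogonal to all cycles
supported in closed fibres -/
def Lifts (M : T.Model) (c : T.Ch (T.gen M)) : Prop :=
  ∃ z, ap (T.res M) z = c ∧ ∀ v w, ev (T.int M v) z w = 0

/-- The liftable classes of a variety, defined without using a model of this variety: the
combinations of images, under correspondences, of homologically trivial classes with an orthogonal lift
to some model of some other variety. -/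
def liftable (X : T.Var) : Sub (T.Ch X) :=
  gener fun c => ∃ (M : T.Model) (f : Lin (T.Ch (T.gen M)) (T.Ch X)) (f' : _) (c' : _),
    T.Corr f f' ∧ inn (T.hom (T.gen M)) c' ∧ T.Lifts M c' ∧ c = ap f c'

/-- `c` has a lift to `Ch^i` of the model which is orthogonal to the classes of codimension
`dim X + 1 - i` supported in closed fibres -/
def HasLift (M : T.Model) (i : ℤ) (c : T.Ch (T.gen M)) : Prop :=
  ∃ z, ap (T.codimM M i) z = z ∧ ap (T.res M) z = c ∧
    ∀ v w, ap (T.codimF M v (T.dim (T.gen M) + 1 - i)) w = w → ev (T.int M v) z w = 0

/-- the question Q1 for the model `M` and the codimension `i`: every homologically trivial class of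
codimension `i` has a lift orthogonal to the classes supported in closed fibres -/
def Question (M : T.Model) (i : ℤ) : Prop :=
  ∀ c, inn (T.hom (T.gen M)) c → ap (T.codim (T.gen M) i) c = c → T.HasLift M i c

/-- For each place `v` the intersection numbers with the cycles in the fibre at `v` are given by maps
`a`, `b` to finite-dimensional vector spaces in duality over a field `F` (such as `ℚ_ℓ`, with the
`ℓ`-adic cohomology and homology of the fibre), such that the values of `a` at the cycles which are
homologically trivial on the generic fibre are combinations over `F` of the values at the cycles in the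
fibre. -/
def FibralCohomology (M : T.Model) : Prop :=
  ∀ v, ∃ (F : Type) (_ : Field F) (_ : CharZero F) (n : ℕ)
    (a : T.ChM M →ₗ[ℚ] (Fin n → F)) (b : T.Fib M v →ₗ[ℚ] (Fin n → F)),
    Through (T.int M v) F n a b ∧ ∀ z, inn (T.hom (T.gen M)) (ap (T.res M) z) →
      a z ∈ Submodule.span F (Set.range fun y => a (ap (T.incl M v) y))

variable {T}

/-- the classes algebraically equivalent to zero: generated by the images, under correspondences, of
the homologically trivial classes (divisor classes of degree zero) of curves -/
def Curves.algTriv (C : T.Curves) (X : T.Var) : Sub (T.Ch X) :=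
  gener fun c => ∃ (M : T.Model) (f : Lin (T.Ch (T.gen M)) (T.Ch X)) (f' : _) (c' : _),
    C.curve M ∧ T.Corr f f' ∧ inn (T.hom (T.gen M)) c' ∧ c = ap f c'

end Cycles

end Pool.Agent.L0h15.OL
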