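import Pool.Agent.L0h15.OL.Ax

/-!
# The Gillet-Soulé pairing and height pairings
-/

set_option autoImplicit false

namespace Pool.Agent.L0h15.OL

namespace Cycles

variable (T : Cycles)

/-- the class on the model is homologically trivial on the generic fibre -/
def HomTriv (M : T.Model) (z : T.ChM M) : Prop := inn (T.hom (T.gen M)) (ap (T.res M) z)

/-- the class on the model is homologically trivial on the generic fibre and orthogonal to all cycles
supported in closed fibres -/
def Orth (M : T.Model) (z : T.ChM M) : Prop :=
  T.HomTriv M z ∧ ∀ v w, ev (T.int M v) z w = 0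

/-- the Gillet-Soulé pairing of classes which are homologically trivial on the generic fibre, with its
known properties (its values at other classes have no meaning) -/
structure GilletSoule (A : T.Functoriality) where
  /-- the logarithm of the norm of a finite place -/
  logN : T.Place → ℝ
  pos : ∀ v, 0 < logN v
  /-- the pairing -/
  gs : ∀ M, T.ChM M → T.ChM M → ℝ
  add : ∀ M z z' w, T.HomTriv M z → T.HomTriv M z' → T.HomTriv M w →
    gs M (z + z') w = gs M z w + gs M z' w
  smul : ∀ M (r : ℚ) z w, T.HomTriv M z → T.HomTriv M w → gs M (r • z) w = r * gs M z w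
  symm : ∀ M z w, T.HomTriv M z → T.HomTriv M w → gs M z w = gs M w z
  /-- the value at a cycle in a closed fibre -/
  fib : ∀ M v y z, T.HomTriv M z → gs M z (ap (T.incl M v) y) = logN v * ev (T.int M v) z y
  /-- the projection formula -/
  push : ∀ {M N} (f : A.Mor M N) z w, T.HomTriv M z → T.HomTriv N w →
    gs N (ap (A.push f) z) w = gs M z (ap (A.pull f) w)

variable {T} {A : T.Functoriality}

/-- `h` is a height pairing on the liftable classes: for the models in `S` it is the Gillet-Soulé
pairing of orthogonal lifts, and correspondences are adjoint to their transposes -/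
def GilletSoule.IsHeight (G : T.GilletSoule A) (S : Set T.Model)
    (h : ∀ X, T.Ch X → T.Ch X → ℝ) : Prop :=
  (∀ M z w, M ∈ S → T.Orth M z → T.Orth M w →
    h (T.gen M) (ap (T.res M) z) (ap (T.res M) w) = G.gs M z w) ∧
  ∀ Y X (f : Lin (T.Ch Y) (T.Ch X)) f' c c', T.Corr f f' → inn (T.liftable Y) c →
    inn (T.liftable X) c' → h X (ap f c) c' = h Y c (ap f' c')

variable (T) in
/-- `h` is symmetric and bilinear over `ℚ` on the liftable classes -/
def IsBilinear (h : ∀ X, T.Ch X → T.Ch X → ℝ) : Prop :=
  ∀ X c d e, inn (T.liftable X) c → inn (T.liftable X) d → inn (T.liftable X) e →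
    h X c e = h X e c ∧ h X (c + d) e = h X c e + h X d e ∧ ∀ r : ℚ, h X (r • c) e = r * h X c e

end Cycles

end Pool.Agent.L0h15.OL
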