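import Mathlib

/-!
# Linear algebra of pairings of finite rank
-/

set_option autoImplicit false

namespace Pool.Agent.L0h15.OL

/-- For a bilinear form which is given by maps to a finite-dimensional vector space over a field
extension, the left orthogonality to a set can be tested on a finite subset. -/
theorem exists_test {V W : Type*} [AddCommGroup V] [Module ℚ V] [AddCommGroup W] [Module ℚ W]
    (B : V →ₗ[ℚ] W →ₗ[ℚ] ℚ) {F : Type*} [Field F] [CharZero F] {n : ℕ}
    (a : V →ₗ[ℚ] (Fin n → F)) (b : W →ₗ[ℚ] (Fin n → F))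
    (h : ∀ z w, ((B z w : ℚ) : F) = ∑ k, a z k * b w k) (s : Set W) :
    ∃ t : Finset W, (t : Set W) ⊆ s ∧ ∀ z, (∀ w ∈ t, B z w = 0) → ∀ w ∈ s, B z w = 0 := by
  classical
  obtain ⟨u, hu, hspan, hlin⟩ := exists_linearIndependent F (b '' s)
  have hfin : u.Finite := hlin.setFinite
  have hex : ∀ x ∈ u, ∃ w ∈ s, b w = x := fun x hx => hu hx
  choose! g hg hgb using hex
  refine ⟨hfin.toFinset.image g, ?_, ?_⟩
  · intro x hx
    rw [Finset.coe_image] at hx
    obtain ⟨y, hy, rfl⟩ := hx
    exact hg y (by simpa using hy)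
  · intro z hz w hw
    let ell : (Fin n → F) →ₗ[F] F := ∑ k, (a z k) • LinearMap.proj k
    have hell : ∀ x, ell x = ∑ k, a z k * x k := fun x => by
      simp only [ell, LinearMap.sum_apply, LinearMap.smul_apply, LinearMap.proj_apply, smul_eq_mul]
    have h1 : Submodule.span F u ≤ LinearMap.ker ell := by
      rw [Submodule.span_le]
      intro x hx
      rw [SetLike.mem_coe, LinearMap.mem_ker, hell, ← hgb x hx, ← h,
        hz (g x) (Finset.mem_image.2 ⟨x, hfin.mem_toFinset.2 hx, rfl⟩), Rat.cast_zero]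
    have h2 : b w ∈ Submodule.span F u := by
      rw [hspan]
      exact Submodule.subset_span ⟨w, hw, rfl⟩
    have h3 := h1 h2
    rw [LinearMap.mem_ker, hell, ← h] at h3
    exact_mod_cast h3

/-- For a bilinear form of finite rank, a functional which vanishes on the right kernel is given by
some element of the left space. -/
theorem exists_eq_of_ker {V W : Type*} [AddCommGroup V] [Module ℚ V] [AddCommGroup W] [Module ℚ W]
    (B : V →ₗ[ℚ] W →ₗ[ℚ] ℚ) {F : Type*} [Field F] [CharZero F] {n : ℕ}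
    (a : V →ₗ[ℚ] (Fin n → F)) (b : W →ₗ[ℚ] (Fin n → F))
    (h : ∀ z w, ((B z w : ℚ) : F) = ∑ k, a z k * b w k) (f : W →ₗ[ℚ] ℚ)
    (hf : ∀ w, (∀ z, B z w = 0) → f w = 0) : ∃ z, B z = f := by
  classical
  obtain ⟨t, -, ht⟩ := exists_test B.flip b a (fun w z => by
    rw [LinearMap.flip_apply, h]
    exact Finset.sum_congr rfl fun k _ => mul_comm _ _) Set.univ
  have h1 : ⨅ z : t, LinearMap.ker (B z) ≤ LinearMap.ker f := by
    intro w hw
    rw [Submodule.mem_iInf] at hw
    rw [LinearMap.mem_ker]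
    refine hf w fun z => ?_
    exact ht w (fun z hz => by simpa using hw ⟨z, hz⟩) z (Set.mem_univ z)
  have h2 := mem_span_of_iInf_ker_le_ker h1
  have h3 : Submodule.span ℚ (Set.range fun z : t => B z) ≤ LinearMap.range B := by
    rw [Submodule.span_le]
    rintro _ ⟨z, rfl⟩
    exact ⟨z, rfl⟩
  exact h3 h2

/-- Finite codimension is preserved by surjections. -/
theorem finite_quotient {A B : Type*} [AddCommGroup A] [Module ℚ A] [AddCommGroup B] [Module ℚ B]
    (f : A →ₗ[ℚ] B) (hf : Function.Surjective f) (K : Submodule ℚ A) (L : Submodule ℚ B)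
    [Module.Finite ℚ (A ⧸ K)] (h : K ≤ L.comap f) : Module.Finite ℚ (B ⧸ L) := by
  refine Module.Finite.of_surjective (K.mapQ L f h) ?_
  intro x
  obtain ⟨y, rfl⟩ := L.mkQ_surjective x
  obtain ⟨z, rfl⟩ := hf y
  exact ⟨K.mkQ z, by rw [Submodule.mkQ_apply, Submodule.mapQ_apply, Submodule.mkQ_apply]⟩

/-- The elements which are orthogonal to a finite set are of finite codimension. -/
theorem finite_quotient_of_tests {A : Type*} [AddCommGroup A] [Module ℚ A] {ι : Type*} [Finite ι]
    (f : ι → (A →ₗ[ℚ] ℚ)) (K : Submodule ℚ A) (h : ∀ x, (∀ i, f i x = 0) → x ∈ K) :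
    Module.Finite ℚ (A ⧸ K) := by
  have h1 : (LinearMap.ker (LinearMap.pi f)) ≤ K := by
    intro x hx
    refine h x fun i => ?_
    rw [LinearMap.mem_ker] at hx
    simpa using congrFun hx i
  exact Submodule.CoFG.of_le h1 (Submodule.CoFG.ker _)

end Pool.Agent.L0h15.OL
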