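import Pool.Agent.L0h15.OL.Transfer
import Pool.Agent.L0h15.OL.Lin

/-!
# The obstructions to orthogonal lifts, and their finiteness
-/

set_option autoImplicit false

namespace Pool.Agent.L0h15.OL

namespace ArithmeticCycles

variable (T : ArithmeticCycles)

theorem res_incl (M : T.Model) (v : T.Place) (y : T.Fib M v) : T.res M (T.incl M v y) = 0 := by
  have h : T.incl M v y ∈ LinearMap.ker (T.res M) := by
    rw [T.ker_res]
    exact Submodule.mem_iSup_of_mem v ⟨y, rfl⟩
  exact h

/-- the classes of the closed fibre at `v` whose intersection numbers with all classes of this fibre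
are zero -/
def radical (M : T.Model) (v : T.Place) : Submodule ℚ (T.Fib M v) where
  carrier := {w | ∀ y, T.int M v (T.incl M v y) w = 0}
  zero_mem' := fun y => map_zero _
  add_mem' := fun {a b} ha hb y => by rw [map_add, ha, hb, add_zero]
  smul_mem' := fun c {a} ha y => by rw [map_smul, ha, smul_zero]

theorem mem_radical {M : T.Model} {v : T.Place} {w : T.Fib M v} :
    w ∈ T.radical M v ↔ ∀ y, T.int M v (T.incl M v y) w = 0 := Iff.rfl

/-- the radical is orthogonal to the cycles in all closed fibres -/
theorem int_ker_radical (M : T.Model) {z : T.ChM M} (hz : T.res M z = 0) {v : T.Place}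
    {w : T.Fib M v} (hw : w ∈ T.radical M v) : T.int M v z w = 0 := by
  have h : z ∈ ⨆ v, LinearMap.range (T.incl M v) := by
    rw [← T.ker_res]
    exact hz
  induction h using Submodule.iSup_induction' with
  | mem v' x hx =>
    obtain ⟨y, rfl⟩ := hx
    by_cases hv : v = v'
    · subst hv
      exact hw y
    · exact T.int_disjoint M v v' hv y w
  | zero => rw [map_zero, LinearMap.zero_apply]
  | add x y _ _ hx hy =>
    have h1 : T.res M x = 0 := by
      have : x ∈ LinearMap.ker (T.res M) := by rw [T.ker_res]; assumption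
      exact this
    have h2 : T.res M y = 0 := by
      have : y ∈ LinearMap.ker (T.res M) := by rw [T.ker_res]; assumption
      exact this
    rw [map_add, LinearMap.add_apply, hx h1, hy h2, add_zero]

/-- the intersection numbers with a class of the radical depend only on the generic fibre -/
theorem int_radical (M : T.Model) {z z' : T.ChM M} (hz : T.res M z = T.res M z') {v : T.Place}
    {w : T.Fib M v} (hw : w ∈ T.radical M v) : T.int M v z w = T.int M v z' w := by
  have h := T.int_ker_radical M (z := z - z') (by rw [map_sub, hz, sub_self]) hw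
  rw [map_sub, LinearMap.sub_apply, sub_eq_zero] at h
  exact h

/-- a functional on a closed fibre which vanishes on the radical is represented by a class of this
fibre -/
theorem exists_incl (M : T.Model) (v : T.Place) (f : T.Fib M v →ₗ[ℚ] ℚ)
    (hf : ∀ w ∈ T.radical M v, f w = 0) : ∃ y, T.int M v (T.incl M v y) = f := by
  obtain ⟨F, _, _, n, a, b, h⟩ := T.cohomology M v
  obtain ⟨y, hy⟩ := exists_eq_of_ker ((T.int M v).comp (T.incl M v)) (a.comp (T.incl M v)) b
    (fun y w => by
      change ((T.int M v (T.incl M v y) w : ℚ) : F) = _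
      rw [h]; rfl) f (fun w hw => hf w fun y => hw y)
  exact ⟨y, hy⟩

/-- the criterion: a class has an orthogonal lift if and only if its lifts are orthogonal to the
radicals -/
theorem mem_lifts_iff (M : T.Model) {z : T.ChM M} (hz : T.res M z ∈ T.hom (T.gen M)) :
    T.res M z ∈ T.lifts M ↔ ∀ v, ∀ w ∈ T.radical M v, T.int M v z w = 0 := by
  classical
  constructor
  · rintro ⟨z', hz', hres⟩ v w hw
    rw [← T.int_radical M hres hw]
    exact hz' v w
  · intro h
    obtain ⟨S, hS⟩ := T.good M
    have hex : ∀ v, ∃ y, T.int M v (T.incl M v y) = T.int M v z := fun v =>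
      T.exists_incl M v _ (h v)
    choose y hy using hex
    refine ⟨z - ∑ v ∈ S, T.incl M v (y v), ?_, ?_⟩
    · intro v w
      rw [map_sub, LinearMap.sub_apply, map_sum, LinearMap.sum_apply]
      by_cases hv : v ∈ S
      · rw [Finset.sum_eq_single_of_mem v hv
          (fun v' _ hne => T.int_disjoint M v v' (Ne.symm hne) _ _), hy, sub_self]
      · rw [hS v hv z hz, Finset.sum_eq_zero, sub_zero]
        intro v' hv'
        exact T.int_disjoint M v v' (fun he => hv (he ▸ hv')) _ _
    · rw [map_sub, map_sum, Finset.sum_eq_zero (fun v _ => T.res_incl M v _), sub_zero]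

/-- finiteness of the obstruction for a model -/
theorem finite_model (M : T.Model) :
    Module.Finite ℚ (T.hom (T.gen M) ⧸ (T.liftable (T.gen M)).comap (T.hom (T.gen M)).subtype) := by
  classical
  obtain ⟨S, hS⟩ := T.good M
  have htest : ∀ v, ∃ t : Finset (T.Fib M v), (t : Set (T.Fib M v)) ⊆ T.radical M v ∧
      ∀ z, (∀ w ∈ t, T.int M v z w = 0) → ∀ w ∈ (T.radical M v : Set (T.Fib M v)),
        T.int M v z w = 0 := by
    intro v
    obtain ⟨F, _, _, n, a, b, h⟩ := T.cohomology M v
    exact exists_test (T.int M v) a b h _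
  choose t _ ht2 using htest
  let A : Submodule ℚ (T.ChM M) := (T.hom (T.gen M)).comap (T.res M)
  let K : Submodule ℚ A := ((T.lifts M).comap (T.res M)).comap A.subtype
  have hfin : Module.Finite ℚ (A ⧸ K) := by
    refine finite_quotient_of_tests
      (ι := Σ v : S, t v) (fun p => ((T.int M p.1).flip p.2).comp A.subtype) K ?_
    intro x hx
    change T.res M x ∈ T.lifts M
    rw [T.mem_lifts_iff M x.2]
    intro v w hw
    by_cases hv : v ∈ S
    · refine ht2 v x (fun w' hw' => ?_) w hw
      exact hx ⟨⟨v, hv⟩, ⟨w', hw'⟩⟩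
    · exact hS v hv x x.2 w
  let f : A →ₗ[ℚ] T.hom (T.gen M) := (T.res M).restrict (fun x hx => hx)
  refine finite_quotient f ?_ K _ ?_
  · rintro ⟨c, hc⟩
    obtain ⟨z, rfl⟩ := T.res_surjective M c
    exact ⟨⟨z, hc⟩, rfl⟩
  · intro x hx
    change T.res M x ∈ T.liftable (T.gen M)
    rw [T.liftable_gen]
    exact ⟨x.2, hx⟩

/-- finiteness of the obstruction for a variety -/
theorem finite_var (X : T.Var) :
    Module.Finite ℚ (T.hom X ⧸ (T.liftable X).comap (T.hom X).subtype) := by
  obtain ⟨M, -, a, ha, b, hb, hba, -, -⟩ := T.cover X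
  have h := T.finite_model M
  let f : T.hom (T.gen M) →ₗ[ℚ] T.hom X := b.1.restrict (fun x hx => T.corr_hom hb x hx)
  refine finite_quotient f ?_ ((T.liftable (T.gen M)).comap (T.hom (T.gen M)).subtype) _ ?_
  · rintro ⟨c, hc⟩
    refine ⟨⟨a.1 c, T.corr_hom ha c hc⟩, Subtype.ext ?_⟩
    exact LinearMap.congr_fun hba c
  · intro x hx
    exact T.corr_liftable hb hx

/-- the cohomological criterion: if the classes of the lifts are combinations, with coefficients in the
field of coefficients of the cohomology, of the classes of cycles in the closed fibres, then all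
homologically trivial classes are liftable -/
theorem liftable_of_cohomology (M : T.Model)
    (h : ∀ v, ∃ (F : Type) (_ : Field F) (_ : CharZero F) (n : ℕ)
      (a : T.ChM M →ₗ[ℚ] (Fin n → F)) (b : T.Fib M v →ₗ[ℚ] (Fin n → F)),
      (∀ z w, ((T.int M v z w : ℚ) : F) = ∑ k, a z k * b w k) ∧
      ∀ z, T.res M z ∈ T.hom (T.gen M) →
        a z ∈ Submodule.span F (Set.range fun y => a (T.incl M v y))) :
    T.hom (T.gen M) ≤ T.liftable (T.gen M) := by
  intro c hc
  obtain ⟨z, rfl⟩ := T.res_surjective M c
  rw [T.liftable_gen]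
  refine ⟨hc, (T.mem_lifts_iff M hc).2 ?_⟩
  intro v w hw
  obtain ⟨F, _, _, n, a, b, hab, hspan⟩ := h v
  let ell : (Fin n → F) →ₗ[F] F := ∑ k, (b w k) • LinearMap.proj k
  have hell : ∀ x, ell x = ∑ k, x k * b w k := fun x => by
    simp only [ell, LinearMap.sum_apply, LinearMap.smul_apply, LinearMap.proj_apply, smul_eq_mul,
      mul_comm]
  have h1 : Submodule.span F (Set.range fun y => a (T.incl M v y)) ≤ LinearMap.ker ell := by
    rw [Submodule.span_le]
    rintro _ ⟨y, rfl⟩
    rw [SetLike.mem_coe, LinearMap.mem_ker, hell, ← hab, hw y, Rat.cast_zero]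
  have h2 := h1 (hspan z hc)
  rw [LinearMap.mem_ker, hell, ← hab] at h2
  exact_mod_cast h2

/-- models of curves -/
theorem hom_curve (C : Curves T) {M : T.Model} (hM : M ∈ C.curve) : T.hom (T.gen M) ≤ T.liftable (T.gen M) := by
  intro c hc
  obtain ⟨z, rfl⟩ := T.res_surjective M c
  rw [T.liftable_gen]
  refine ⟨hc, (T.mem_lifts_iff M hc).2 ?_⟩
  intro v w hw
  obtain ⟨n, Φ, Pt, h1, h2, h3⟩ := C.zariski M hM v
  obtain ⟨r, u, hu, rfl⟩ := h1 w hw
  rw [map_add, h3 z hc u hu, add_zero, map_sum]
  refine Finset.sum_eq_zero fun j _ => ?_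
  rw [map_smul, h2 z hc j, smul_zero]

/-- algebraically trivial classes are liftable -/
theorem algTriv_le (C : Curves T) (X : T.Var) : C.algTriv X ≤ T.liftable X := by
  rw [Curves.algTriv, Submodule.span_le]
  rintro _ ⟨M, hM, b, hb, c', hc', rfl⟩
  exact T.corr_liftable hb (T.hom_curve C hM hc')

end ArithmeticCycles

end Pool.Agent.L0h15.OL
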