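import Pool.Agent.L0h15.OL.Transfer

/-!
# Reduction to the middle codimension
-/

set_option autoImplicit false

namespace Pool.Agent.L0h15.OL

namespace ArithmeticCycles

variable (T : ArithmeticCycles) (L : Lefschetz T)

/-- `𝒮` contains, for the variety `X`, a model of a variety of the same dimension such that `X` is a
retract of this variety by correspondences which preserve the codimension (for example a regular
model with some further property of a variety which is generically finite over `X`) -/
def Dominates (S : Set T.Model) (X : T.Var) : Prop :=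
  ∃ M ∈ S, T.dim (T.gen M) = T.dim X ∧ ∃ a ∈ T.Corr X (T.gen M), ∃ b ∈ T.Corr (T.gen M) X,
    b.1 ∘ₗ a.1 = LinearMap.id ∧ ∀ i c, T.codim (T.gen M) i (a.1 c) = a.1 (T.codim X i c)

include L in
/-- every homologically trivial cycle of dimension `e` is liftable, if this holds in dimension
`2 e + 1` -/
theorem liftable_of_middle (e : ℕ)
    (hmid : ∀ X, T.dim X = 2 * e + 1 → ∀ c ∈ T.hom X, T.codim X (T.dim X - e) c = c →
      c ∈ T.liftable X) :
    ∀ X, ∀ c ∈ T.hom X, T.codim X (T.dim X - e) c = c → c ∈ T.liftable X := by
  -- varieties of larger dimension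
  have hlarge : ∀ k : ℕ, ∀ X, T.dim X = 2 * e + 1 + k → ∀ c ∈ T.hom X,
      T.codim X (T.dim X - e) c = c → c ∈ T.liftable X := by
    intro k
    induction k with
    | zero => exact hmid
    | succ k ih =>
      intro X hX c hc hi
      obtain ⟨Z, hP, hdim, a, ha, b, hb, hba, hcodim⟩ := L.cover X
      refine T.liftable_of_retract hb hba ?_
      have hc1 : a.1 c ∈ T.hom Z := T.corr_hom ha c hc
      have hi1 : T.codim Z (T.dim Z - e) (a.1 c) = a.1 c := by
        rw [hdim, hcodim, hi]
      obtain ⟨Y, s, c', hc', hinc⟩ := L.bertini Z hP e (by omega) (a.1 c) hi1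
      have hY : T.dim Y + 1 = T.dim Z := L.sect_dim s
      have hhom : c' ∈ T.hom Y := L.lefschetz s e (by omega) c' hc' (by rw [hinc]; exact hc1)
      have h := ih Y (by omega) c' hhom hc'
      rw [← hinc]
      exact T.corr_liftable (L.inc_corr s) h
  -- varieties of smaller dimension
  have hsmall : ∀ k : ℕ, ∀ X, T.dim X + k = 2 * e + 1 → ∀ c ∈ T.hom X,
      T.codim X (T.dim X - e) c = c → c ∈ T.liftable X := by
    intro k
    induction k with
    | zero => intro X hX; exact hmid X (by omega)
    | succ k ih =>
      intro X hX c hc hi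
      obtain ⟨Y, hdim, a, ha, b, hb, hba, hcodim⟩ := L.line X
      refine T.liftable_of_retract hb hba ?_
      refine ih Y (by omega) (a.1 c) (T.corr_hom ha c hc) ?_
      have h1 : ((T.dim Y : ℤ) - e) = ((T.dim X : ℤ) - e) + 1 := by
        rw [hdim]; push_cast; ring
      rw [h1, hcodim, hi]
  intro X c hc hi
  rcases le_total (T.dim X) (2 * e + 1) with h | h
  · exact hsmall (2 * e + 1 - T.dim X) X (by omega) c hc hi
  · exact hlarge (T.dim X - (2 * e + 1)) X (by omega) c hc hi

include L in
/-- the question for the models of varieties of dimension `2 e + 1` and the codimension `e + 1`, for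
one class of models which dominates all varieties of this dimension, implies that all homologically
trivial cycles of dimension `e` are liftable -/
theorem liftable_of_question (e : ℕ) (S : Set T.Model)
    (hS : ∀ X, T.dim X = 2 * e + 1 → T.Dominates S X)
    (hQ : ∀ M ∈ S, T.dim (T.gen M) = 2 * e + 1 → T.Question M (e + 1)) :
    ∀ X, ∀ c ∈ T.hom X, T.codim X (T.dim X - e) c = c → c ∈ T.liftable X := by
  refine T.liftable_of_middle L e ?_
  intro X hX c hc hi
  obtain ⟨M, hM, hdim, a, ha, b, hb, hba, hcodim⟩ := hS X hX
  refine T.liftable_of_retract hb hba ?_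
  have h1 : ((T.dim X : ℤ) - e) = e + 1 := by rw [hX]; push_cast; ring
  have hi1 : T.codim (T.gen M) (e + 1) (a.1 c) = a.1 c := by
    rw [hcodim, ← h1, hi]
  have hc1 := T.corr_hom ha c hc
  exact (T.hasLift_iff_liftable M _ hc1 hi1).1 (hQ M hM (by rw [hdim, hX]) _ hc1 hi1)

include L in
/-- the complete reduction for the cycles of dimension `e` -/
theorem question_of_middle (e : ℕ) (S : Set T.Model)
    (hS : ∀ X, T.dim X = 2 * e + 1 → T.Dominates S X)
    (hQ : ∀ M ∈ S, T.dim (T.gen M) = 2 * e + 1 → T.Question M (e + 1)) (M : T.Model) :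
    T.Question M (T.dim (T.gen M) - e) := by
  intro c hc hi
  exact (T.hasLift_iff_liftable M _ hc hi).2 (T.liftable_of_question L e S hS hQ _ c hc hi)

/-- in negative codimension and in codimension larger than the dimension there are no classes -/
theorem eq_zero_of_codim {X : T.Var} {i : ℤ} (hi : i < 0 ∨ (T.dim X : ℤ) < i) {c : T.Ch X}
    (hc : T.codim X i c = c) : c = 0 := by
  rw [← T.codim_sum X c]
  refine Finset.sum_eq_zero fun j hj => ?_
  rw [← hc, T.codim_codim, if_neg]
  rw [Finset.mem_range] at hj
  omega

theorem hasLift_zero (M : T.Model) (i : ℤ) : T.HasLift M i 0 :=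
  ⟨0, map_zero _, map_zero _, fun v w _ => by rw [map_zero, LinearMap.zero_apply]⟩

include L in
/-- Q1 for all models and all codimensions follows from the middle codimension, for a dominating
class of models -/
theorem question_all (S : Set T.Model)
    (hS : ∀ X, Odd (T.dim X) → T.Dominates S X)
    (hQ : ∀ M ∈ S, ∀ e : ℕ, T.dim (T.gen M) = 2 * e + 1 → T.Question M (e + 1)) (M : T.Model)
    (i : ℤ) : T.Question M i := by
  intro c hc hi
  by_cases h : i < 0 ∨ (T.dim (T.gen M) : ℤ) < i
  · rw [T.eq_zero_of_codim h hi]
    exact T.hasLift_zero M i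
  · push Not at h
    obtain ⟨e, he⟩ : ∃ e : ℕ, (e : ℤ) = T.dim (T.gen M) - i :=
      ⟨((T.dim (T.gen M) : ℤ) - i).toNat, Int.toNat_of_nonneg (by omega)⟩
    have h1 : i = T.dim (T.gen M) - e := by omega
    have h2 := T.question_of_middle L e S (fun X hX => hS X ⟨e, hX⟩) (fun N hN hd => hQ N hN e hd) M
    rw [← h1] at h2
    exact h2 c hc hi

/-- all models together dominate every variety -/
theorem dominates_univ (X : T.Var) : T.Dominates Set.univ X := by
  obtain ⟨M, hdim, a, ha, b, hb, hba, -, hcodim⟩ := T.cover X
  exact ⟨M, Set.mem_univ M, hdim, a, ha, b, hb, hba, hcodim⟩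

end ArithmeticCycles

end Pool.Agent.L0h15.OL
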