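import Pool.Agent.L0h15.OL.Ax
import Pool.Agent.L0h15.OL.Middle
import Pool.Agent.L0h15.OL.Finite

/-!
# Comparison of the two presentations of the data
-/

set_option autoImplicit false

namespace Pool.Agent.L0h15.OL

namespace Cycles

variable {T : Cycles}

/-- the data in one structure -/
noncomputable def toD (hV : T.Varieties) (hM : T.Models) (A : T.Functoriality) :
    ArithmeticCycles where
  Var := T.Var
  dim := T.dim
  Ch := fun X => (T.Ch X).carrier
  grp := fun X => (T.Ch X).grp
  mod := fun X => (T.Ch X).mod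
  codim := T.codim
  codim_codim := fun X i j c => by
    split_ifs with h
    · subst h
      exact hV.codim_idem X i c
    · exact hV.codim_ne X i j c h
  codim_sum := hV.codim_sum
  hom := T.hom
  hom_codim := fun X i c hc => hV.hom_codim X i c hc
  Corr := fun Y X => {b | T.Corr (Y := Y) (X := X) b.1 b.2}
  one_corr := hV.diagonal
  comp_corr := fun {X Y Z} {b} {a} hb ha => hV.comp b.1 b.2 a.1 a.2 hb ha
  transpose := fun {X Y} {b} hb => hV.transpose b.1 b.2 hb
  corr_hom := fun {X Y} {b} hb c hc => hV.corr_hom b.1 b.2 hb c hc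
  Model := T.Model
  gen := T.gen
  ChM := fun M => (T.ChM M).carrier
  grpM := fun M => (T.ChM M).grp
  modM := fun M => (T.ChM M).mod
  codimM := T.codimM
  codimM_idem := hM.codimM_idem
  res := T.res
  res_surjective := fun M c => hM.res_surjective M c
  res_codim := hM.res_codim
  Place := T.Place
  Fib := fun M v => (T.Fib M v).carrier
  grpF := fun M v => (T.Fib M v).grp
  modF := fun M v => (T.Fib M v).mod
  codimF := T.codimF
  codimF_idem := hM.codimF_idem
  incl := T.incl
  ker_res := fun M => by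
    refine le_antisymm ?_ ?_
    · intro z hz
      have h : z ∈ Submodule.span ℚ {x : (T.ChM M).carrier | ∃ v y, x = ap (T.incl M v) y} :=
        (hM.localisation M z).1 hz
      refine (Submodule.span_le.2 ?_) h
      rintro _ ⟨v, y, rfl⟩
      exact Submodule.mem_iSup_of_mem v ⟨y, rfl⟩
    · refine iSup_le fun v => ?_
      rintro _ ⟨y, rfl⟩
      exact (hM.localisation M _).2 (Submodule.subset_span ⟨v, y, rfl⟩)
  int := T.int
  int_codim := hM.int_codim
  int_disjoint := hM.int_disjoint
  good := hM.good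
  cohomology := hM.cohomology
  Mor := A.Mor
  pull := A.pull
  push := A.push
  pullG := A.pullG
  pushG := A.pushG
  graph := A.graph
  pullF := A.pullF
  pushF := A.pushF
  res_pull := A.res_pull
  res_push := A.res_push
  int_push := A.int_push
  int_pull := A.int_pull
  alteration := fun M N b hb => by
    obtain ⟨n, r, P, p, q, h1, h2⟩ := A.alteration M N b.1 b.2 hb
    have h : b = ∑ k, r k • (((show (T.Ch (T.gen (P k))) →ₗ[ℚ] (T.Ch (T.gen N)) from A.pushG (q k)) ∘ₗ
        (show (T.Ch (T.gen M)) →ₗ[ℚ] (T.Ch (T.gen (P k))) from A.pullG (p k)),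
        (show (T.Ch (T.gen (P k))) →ₗ[ℚ] (T.Ch (T.gen M)) from A.pushG (p k)) ∘ₗ
        (show (T.Ch (T.gen N)) →ₗ[ℚ] (T.Ch (T.gen (P k))) from A.pullG (q k))) :
        ((T.Ch (T.gen M)) →ₗ[ℚ] (T.Ch (T.gen N))) × ((T.Ch (T.gen N)) →ₗ[ℚ] (T.Ch (T.gen M)))) := by
      refine Prod.ext ?_ ?_
      · refine LinearMap.ext fun c => ?_
        rw [Prod.fst_sum, LinearMap.sum_apply]
        exact h1 c
      · refine LinearMap.ext fun c => ?_
        rw [Prod.snd_sum, LinearMap.sum_apply]
        exact h2 c
    rw [h]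
    refine Submodule.sum_mem _ fun k _ => Submodule.smul_mem _ _ (Submodule.subset_span ?_)
    exact ⟨P k, p k, q k, rfl⟩
  cover := fun X => by
    obtain ⟨M, hdim, a, a', b, b', ha, hb, h1, h2, h3⟩ := A.cover X
    refine ⟨M, hdim, (a, a'), ha, (b, b'), hb, LinearMap.ext h1, LinearMap.ext h2, fun i c => ?_⟩
    have h := h3 i c
    rw [add_zero] at h
    exact h

theorem toD_lifts (hV : T.Varieties) (hM : T.Models) (A : T.Functoriality) (M : T.Model)
    (c : T.Ch (T.gen M)) : T.Lifts M c ↔ c ∈ (toD hV hM A).lifts M := by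
  constructor
  · rintro ⟨z, h1, h2⟩
    exact ⟨z, h2, h1⟩
  · rintro ⟨z, h2, h1⟩
    exact ⟨z, h1, h2⟩

theorem toD_liftable (hV : T.Varieties) (hM : T.Models) (A : T.Functoriality)
    (X : (toD hV hM A).Var) (c : T.Ch X) :
    inn (T.liftable X) c ↔ c ∈ (toD hV hM A).liftable X := by
  have h1 : (show Submodule ℚ (T.Ch X).carrier from T.liftable X) ≤
      (show Submodule ℚ (T.Ch X).carrier from (toD hV hM A).liftable X) := by
    refine Submodule.span_mono ?_
    rintro c ⟨M, f, f', c', h1, h2, h3, h4⟩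
    exact ⟨M, (f, f'), h1, c', ⟨h2, (toD_lifts hV hM A M c').1 h3⟩, h4⟩
  have h2 : (show Submodule ℚ (T.Ch X).carrier from (toD hV hM A).liftable X) ≤
      (show Submodule ℚ (T.Ch X).carrier from T.liftable X) := by
    refine Submodule.span_mono ?_
    rintro c ⟨M, b, h1, c', ⟨h2, h3⟩, h4⟩
    exact ⟨M, b.1, b.2, c', h1, h2, (toD_lifts hV hM A M c').2 h3, h4⟩
  exact ⟨fun h => h1 h, fun h => h2 h⟩

theorem toD_hasLift (hV : T.Varieties) (hM : T.Models) (A : T.Functoriality) (M : T.Model) (i : ℤ)
    (c : T.Ch (T.gen M)) : T.HasLift M i c ↔ (toD hV hM A).HasLift M i c := Iff.rfl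

theorem toD_question (hV : T.Varieties) (hM : T.Models) (A : T.Functoriality) (M : T.Model)
    (i : ℤ) : T.Question M i ↔ (toD hV hM A).Question M i := Iff.rfl

theorem toD_dominates (hV : T.Varieties) (hM : T.Models) (A : T.Functoriality) {S : Set T.Model}
    {X : (toD hV hM A).Var} (h : T.Dominates S X) : (toD hV hM A).Dominates S X := by
  obtain ⟨M, hS, hdim, a, a', b, b', ha, hb, h1, h2, h3⟩ := h
  refine ⟨M, hS, hdim, (a, a'), ha, (b, b'), hb, LinearMap.ext h1, fun i c => ?_⟩
  have h := h3 i c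
  rw [add_zero] at h
  exact h

/-- the geometric input of the reduction to the middle codimension -/
def toLefschetz (hV : T.Varieties) (hM : T.Models) (A : T.Functoriality) (L : T.Lefschetz) :
    OL.Lefschetz (toD hV hM A) where
  Proj := {X | L.Proj X}
  cover := fun X => by
    obtain ⟨Y, hY, hdim, a, a', b, b', ha, hb, h1, h2, h3⟩ := L.cover X
    refine ⟨Y, hY, hdim, (a, a'), ha, (b, b'), hb, LinearMap.ext h1, fun i c => ?_⟩
    have h := h3 i c
    rw [add_zero] at h
    exact h
  line := fun X => by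
    obtain ⟨Y, hdim, a, a', b, b', ha, hb, h1, h2, h3⟩ := L.line X
    exact ⟨Y, hdim, (a, a'), ha, (b, b'), hb, LinearMap.ext h1, h3⟩
  Sect := L.Sect
  sect_dim := L.sect_dim
  inc := fun s => (L.inc s, L.inc' s)
  inc_corr := L.inc_corr
  bertini := L.bertini
  lefschetz := L.lefschetz

/-- the curves -/
def toCurves (hV : T.Varieties) (hM : T.Models) (A : T.Functoriality) (C : T.Curves) :
    OL.Curves (toD hV hM A) where
  curve := {M | C.curve M}
  zariski := fun M hM' v => by
    obtain ⟨n, Φ, Pt, h1, h2, h3⟩ := C.zariski M hM' v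
    exact ⟨n, Φ, Pt, h1, h2, h3⟩

theorem toD_algTriv (hV : T.Varieties) (hM : T.Models) (A : T.Functoriality) (C : T.Curves)
    (X : (toD hV hM A).Var) {c : T.Ch X} (hc : inn (C.algTriv X) c) : c ∈ (toCurves hV hM A C).algTriv X := by
  have h1 : (show Submodule ℚ (T.Ch X).carrier from C.algTriv X) ≤
      (show Submodule ℚ (T.Ch X).carrier from (toCurves hV hM A C).algTriv X) := by
    refine Submodule.span_mono ?_
    rintro c ⟨M, f, f', c', h0, h1, h2, h4⟩
    exact ⟨M, h0, (f, f'), h1, c', h2, h4⟩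
  exact h1 hc

theorem toD_finite (hV : T.Varieties) (hM : T.Models) (A : T.Functoriality)
    (X : (toD hV hM A).Var) : FiniteCodim (T.hom X) (T.liftable X) := by
  have h := (toD hV hM A).finite_var X
  have h1 : (show Submodule ℚ (T.Ch X).carrier from T.liftable X) =
      (show Submodule ℚ (T.Ch X).carrier from (toD hV hM A).liftable X) :=
    Submodule.ext fun c => toD_liftable hV hM A X c
  unfold FiniteCodim
  rw [h1]
  exact h

end Cycles

end Pool.Agent.L0h15.OL
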