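import Mathlib

/-!
# Cycles on smooth proper varieties over a number field and on their regular models
-/

set_option autoImplicit false

namespace Pool.Agent.L0h15.OL

/-- The cycles on the smooth proper varieties over a number field `E` and on the regular proper flat
schemes over its ring of integers, with the formal properties which are known for them. -/
structure ArithmeticCycles where
  /-- the smooth proper varieties over `E`, of pure dimension -/
  Var : Type
  /-- the dimension -/
  dim : Var → ℕ
  /-- `Ch X` is the sum of the Chow groups `Ch^i(X)` with rational coefficients -/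
  Ch : Var → Type
  [grp : ∀ X, AddCommGroup (Ch X)]
  [mod : ∀ X, Module ℚ (Ch X)]
  /-- the component in `Ch^i(X)` -/
  codim : ∀ X, ℤ → (Ch X →ₗ[ℚ] Ch X)
  codim_codim : ∀ X i j c, codim X i (codim X j c) = if i = j then codim X i c else 0
  codim_sum : ∀ X c, ∑ i ∈ Finset.range (dim X + 1), codim X i c = c
  /-- the homologically trivial classes -/
  hom : ∀ X, Submodule ℚ (Ch X)
  hom_codim : ∀ X i, ∀ c ∈ hom X, codim X i c ∈ hom X
  /-- the pairs of maps `(γ_*, γ^*)` which are given by the correspondences `γ` in `Ch (Y × X)` -/
  Corr : ∀ Y X, Set ((Ch Y →ₗ[ℚ] Ch X) × (Ch X →ₗ[ℚ] Ch Y))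
  /-- the diagonal -/
  one_corr : ∀ X, (LinearMap.id, LinearMap.id) ∈ Corr X X
  /-- composition of correspondences -/
  comp_corr : ∀ {X Y Z} {b : (Ch Y →ₗ[ℚ] Ch X) × (Ch X →ₗ[ℚ] Ch Y)}
    {a : (Ch Z →ₗ[ℚ] Ch Y) × (Ch Y →ₗ[ℚ] Ch Z)}, b ∈ Corr Y X → a ∈ Corr Z Y →
    (b.1 ∘ₗ a.1, a.2 ∘ₗ b.2) ∈ Corr Z X
  /-- the transpose of a correspondence -/
  transpose : ∀ {X Y} {b : (Ch Y →ₗ[ℚ] Ch X) × (Ch X →ₗ[ℚ] Ch Y)}, b ∈ Corr Y X →
    (b.2, b.1) ∈ Corr X Y
  /-- correspondences preserve homologically trivial classes -/
  corr_hom : ∀ {X Y} {b : (Ch Y →ₗ[ℚ] Ch X) × (Ch X →ₗ[ℚ] Ch Y)}, b ∈ Corr Y X →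
    ∀ c ∈ hom Y, b.1 c ∈ hom X
  /-- the regular schemes, proper and flat over the ring of integers of `E`, with smooth generic
  fibre -/
  Model : Type
  /-- the generic fibre -/
  gen : Model → Var
  /-- the sum of the Chow groups of the model with rational coefficients -/
  ChM : Model → Type
  [grpM : ∀ M, AddCommGroup (ChM M)]
  [modM : ∀ M, Module ℚ (ChM M)]
  /-- the component in `Ch^i` -/
  codimM : ∀ M, ℤ → (ChM M →ₗ[ℚ] ChM M)
  codimM_idem : ∀ M i z, codimM M i (codimM M i z) = codimM M i z
  /-- the restriction to the generic fibre -/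
  res : ∀ M, ChM M →ₗ[ℚ] Ch (gen M)
  res_surjective : ∀ M, Function.Surjective (res M)
  res_codim : ∀ M i z, res M (codimM M i z) = codim (gen M) i (res M z)
  /-- the finite places of `E` -/
  Place : Type
  /-- the sum of the Chow groups of the closed fibre at `v` with rational coefficients -/
  Fib : Model → Place → Type
  [grpF : ∀ M v, AddCommGroup (Fib M v)]
  [modF : ∀ M v, Module ℚ (Fib M v)]
  /-- the component of codimension `i` in the model -/
  codimF : ∀ M v, ℤ → (Fib M v →ₗ[ℚ] Fib M v)
  codimF_idem : ∀ M v i w, codimF M v i (codimF M v i w) = codimF M v i w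
  /-- the class in the model of a cycle in a closed fibre -/
  incl : ∀ M v, Fib M v →ₗ[ℚ] ChM M
  /-- the localisation sequence -/
  ker_res : ∀ M, LinearMap.ker (res M) = ⨆ v, LinearMap.range (incl M v)
  /-- the intersection number of a cycle on the model with a cycle in the fibre at `v`; multiplied by
  the logarithm of the norm of `v` it is their arithmetic intersection number, if the first cycle is
  homologically trivial on the generic fibre -/
  int : ∀ M v, ChM M →ₗ[ℚ] Fib M v →ₗ[ℚ] ℚ
  /-- only complementary codimensions contribute -/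
  int_codim : ∀ M v i z w,
    int M v (codimM M i z) w = int M v z (codimF M v (dim (gen M) + 1 - i) w)
  /-- different fibres are disjoint -/
  int_disjoint : ∀ M v v', v ≠ v' → ∀ y w, int M v (incl M v' y) w = 0
  /-- good reduction: outside of a finite set of places, a class which is homologically trivial on the
  generic fibre is homologically trivial on the fibre at `v`, so its intersection numbers with all
  cycles in this fibre are zero -/
  good : ∀ M, ∃ S : Finset Place, ∀ v ∉ S, ∀ z, res M z ∈ hom (gen M) → ∀ w, int M v z w = 0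
  /-- the intersection numbers of cycles with cycles in the fibre at `v` are given by the classes of
  the cycles in the (finite-dimensional) `ℓ`-adic cohomology and homology of the fibre -/
  cohomology : ∀ M v, ∃ (F : Type) (_ : Field F) (_ : CharZero F) (n : ℕ)
    (a : ChM M →ₗ[ℚ] (Fin n → F)) (b : Fib M v →ₗ[ℚ] (Fin n → F)),
    ∀ z w, ((int M v z w : ℚ) : F) = ∑ k, a z k * b w k
  /-- morphisms of models over the ring of integers -/
  Mor : Model → Model → Type
  /-- inverse images -/
  pull : ∀ {M N}, Mor M N → (ChM N →ₗ[ℚ] ChM M)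
  /-- direct images -/
  push : ∀ {M N}, Mor M N → (ChM M →ₗ[ℚ] ChM N)
  /-- inverse images for the generic fibres -/
  pullG : ∀ {M N}, Mor M N → (Ch (gen N) →ₗ[ℚ] Ch (gen M))
  /-- direct images for the generic fibres -/
  pushG : ∀ {M N}, Mor M N → (Ch (gen M) →ₗ[ℚ] Ch (gen N))
  /-- the graph of a morphism -/
  graph : ∀ {M N} (f : Mor M N), (pushG f, pullG f) ∈ Corr (gen M) (gen N)
  /-- inverse images for the closed fibres -/
  pullF : ∀ {M N}, Mor M N → ∀ v, (Fib N v →ₗ[ℚ] Fib M v)
  /-- direct images for the closed fibres -/
  pushF : ∀ {M N}, Mor M N → ∀ v, (Fib M v →ₗ[ℚ] Fib N v)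
  res_pull : ∀ {M N} (f : Mor M N) z, res M (pull f z) = pullG f (res N z)
  res_push : ∀ {M N} (f : Mor M N) z, res N (push f z) = pushG f (res M z)
  /-- the projection formula -/
  int_push : ∀ {M N} (f : Mor M N) v z w, int N v (push f z) w = int M v z (pullF f v w)
  /-- the projection formula -/
  int_pull : ∀ {M N} (f : Mor M N) v z w, int M v (pull f z) w = int N v z (pushF f v w)
  /-- alterations (de Jong): every integral closed subscheme of a product of two models which is flat
  over the ring of integers is dominated by a regular model, which is generically finite over it; so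
  the correspondences are combinations of those given by regular models -/
  alteration : ∀ M N, ∀ b ∈ Corr (gen M) (gen N),
    b ∈ Submodule.span ℚ {g | ∃ (P : Model) (p : Mor P M) (q : Mor P N),
      g = (pushG q ∘ₗ pullG p, pushG p ∘ₗ pullG q)}
  /-- alterations (de Jong): every variety is dominated by the generic fibre of a regular model of the
  same dimension, generically finite over it -/
  cover : ∀ X, ∃ M : Model, dim (gen M) = dim X ∧
    ∃ a ∈ Corr X (gen M), ∃ b ∈ Corr (gen M) X, b.1 ∘ₗ a.1 = LinearMap.id ∧
      a.2 ∘ₗ b.2 = LinearMap.id ∧ ∀ i c, codim (gen M) i (a.1 c) = a.1 (codim X i c)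

attribute [instance] ArithmeticCycles.grp ArithmeticCycles.mod ArithmeticCycles.grpM
  ArithmeticCycles.modM ArithmeticCycles.grpF ArithmeticCycles.modF

namespace ArithmeticCycles

variable (T : ArithmeticCycles)

/-- the classes on the model which are orthogonal to all cycles supported in closed fibres -/
def orth (M : T.Model) : Submodule ℚ (T.ChM M) where
  carrier := {z | ∀ v w, T.int M v z w = 0}
  zero_mem' := fun v w => by rw [map_zero, LinearMap.zero_apply]
  add_mem' := fun {a b} ha hb v w => by rw [map_add, LinearMap.add_apply, ha, hb, add_zero]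
  smul_mem' := fun c {a} ha v w => by rw [map_smul, LinearMap.smul_apply, ha, smul_zero]

/-- the classes on the generic fibre of the model which lift to classes orthogonal to all cycles
supported in closed fibres -/
def lifts (M : T.Model) : Submodule ℚ (T.Ch (T.gen M)) := (T.orth M).map (T.res M)

/-- The liftable classes of a variety, defined without using a model of this variety: the
combinations of images, under correspondences, of homologically trivial classes with an orthogonal lift
to some model of some other variety. -/
def liftable (X : T.Var) : Submodule ℚ (T.Ch X) :=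
  Submodule.span ℚ {c | ∃ M : T.Model, ∃ b ∈ T.Corr (T.gen M) X,
    ∃ c' ∈ T.hom (T.gen M) ⊓ T.lifts M, c = b.1 c'}

/-- `c` has a lift to `Ch^i` of the model which is orthogonal to the classes of codimension
`dim X + 1 - i` supported in closed fibres -/
def HasLift (M : T.Model) (i : ℤ) (c : T.Ch (T.gen M)) : Prop :=
  ∃ z, T.codimM M i z = z ∧ T.res M z = c ∧
    ∀ v w, T.codimF M v (T.dim (T.gen M) + 1 - i) w = w → T.int M v z w = 0

/-- the question Q1 for the model `M` and the codimension `i`: every homologically trivial class of
codimension `i` has a lift orthogonal to the classes supported in closed fibres -/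
def Question (M : T.Model) (i : ℤ) : Prop :=
  ∀ c ∈ T.hom (T.gen M), T.codim (T.gen M) i c = c → T.HasLift M i c

end ArithmeticCycles

/-- projective varieties, products with a projective line and hypersurface sections -/
structure Lefschetz (T : ArithmeticCycles) where
  /-- the projective varieties -/
  Proj : Set T.Var
  /-- every variety is dominated by a projective one of the same dimension, generically finite over
  it -/
  cover : ∀ X, ∃ Y ∈ Proj, T.dim Y = T.dim X ∧
    ∃ a ∈ T.Corr X Y, ∃ b ∈ T.Corr Y X, b.1 ∘ₗ a.1 = LinearMap.id ∧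
      ∀ i c, T.codim Y i (a.1 c) = a.1 (T.codim X i c)
  /-- the product with a projective line: cycles `c × point` and the projection to `X` -/
  line : ∀ X, ∃ Y, T.dim Y = T.dim X + 1 ∧ ∃ a ∈ T.Corr X Y, ∃ b ∈ T.Corr Y X,
    b.1 ∘ₗ a.1 = LinearMap.id ∧ ∀ i c, T.codim Y (i + 1) (a.1 c) = a.1 (T.codim X i c)
  /-- the embeddings of varieties as smooth hypersurface sections, for an ample line bundle -/
  Sect : T.Var → T.Var → Type
  sect_dim : ∀ {Y X}, Sect Y X → T.dim Y + 1 = T.dim X
  /-- the direct image under such an embedding, and the inverse image -/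
  inc : ∀ {Y X}, Sect Y X → (T.Ch Y →ₗ[ℚ] T.Ch X) × (T.Ch X →ₗ[ℚ] T.Ch Y)
  inc_corr : ∀ {Y X} (s : Sect Y X), inc s ∈ T.Corr Y X
  /-- if `2 e < dim X`, then every cycle of dimension `e` on the projective variety `X` is rationally
  equivalent, with rational coefficients, to a combination of disjoint smooth subvarieties (Kleiman),
  which is contained in some smooth hypersurface section (Bertini's theorem) -/
  bertini : ∀ X ∈ Proj, ∀ e : ℕ, 2 * e < T.dim X → ∀ c, T.codim X (T.dim X - e) c = c →
    ∃ (Y : T.Var) (s : Sect Y X) (c' : T.Ch Y), T.codim Y (T.dim Y - e) c' = c' ∧ (inc s).1 c' = c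
  /-- the Lefschetz hyperplane theorem, in homology of degree `2 e` less than the dimension of the
  section -/
  lefschetz : ∀ {Y X} (s : Sect Y X) (e : ℕ), 2 * e < T.dim Y → ∀ c',
    T.codim Y (T.dim Y - e) c' = c' → (inc s).1 c' ∈ T.hom X → c' ∈ T.hom Y

/-- the regular models of curves -/
structure Curves (T : ArithmeticCycles) where
  /-- the models of curves -/
  curve : Set T.Model
  /-- Zariski's lemma: in a fibre of a model of a curve, a cycle whose intersection numbers with all
  cycles in the fibre are zero is a combination of the fibres `Φ j` of the connected components and of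
  points; a class which is homologically trivial on the curve is of degree zero on each component, so
  its intersection numbers with `Φ j` and with points are zero -/
  zariski : ∀ M ∈ curve, ∀ v, ∃ (n : ℕ) (Φ : Fin n → T.Fib M v) (Pt : Submodule ℚ (T.Fib M v)),
    (∀ w, (∀ y, T.int M v (T.incl M v y) w = 0) →
      ∃ (a : Fin n → ℚ), ∃ u ∈ Pt, w = ∑ j, a j • Φ j + u) ∧
    (∀ z, T.res M z ∈ T.hom (T.gen M) → ∀ j, T.int M v z (Φ j) = 0) ∧
    ∀ z, T.res M z ∈ T.hom (T.gen M) → ∀ u ∈ Pt, T.int M v z u = 0

/-- the classes algebraically equivalent to zero: generated by the images, under correspondences, of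
the homologically trivial classes (divisor classes of degree zero) of curves -/
def Curves.algTriv {T : ArithmeticCycles} (C : Curves T) (X : T.Var) : Submodule ℚ (T.Ch X) :=
  Submodule.span ℚ {c | ∃ M ∈ C.curve, ∃ b ∈ T.Corr (T.gen M) X, ∃ c' ∈ T.hom (T.gen M),
    c = b.1 c'}

end Pool.Agent.L0h15.OL
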