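import Mathlib

/-!
# Lifting eigenvectors
-/

set_option autoImplicit false

namespace Pool.Agent.L0h15.OL

/-- an invariant vector in the image of an equivariant map is the image of a vector of the generalised
eigenspace -/
theorem fitting_lift {F V W : Type*} [Field F] [AddCommGroup V] [Module F V]
    [FiniteDimensional F V] [AddCommGroup W] [Module F W] (f : V →ₗ[F] V) (g : W →ₗ[F] W)
    (γ : V →ₗ[F] W) (hγ : ∀ x, γ (f x) = g (γ x)) (x : V) (hx : g (γ x) = 0) :
    ∃ y, (∃ N, (f ^ N) y = 0) ∧ γ y = γ x := by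
  obtain ⟨N, hN1, hN2⟩ := ((Filter.eventually_ge_atTop 1).and
    f.eventually_isCompl_ker_pow_range_pow).exists
  have hpow : ∀ (n : ℕ) (z : V), γ ((f ^ n) z) = (g ^ n) (γ z) := by
    intro n
    induction n with
    | zero => intro z; rfl
    | succ n ih =>
      intro z
      rw [pow_succ', pow_succ', Module.End.mul_apply, Module.End.mul_apply, hγ, ih]
  obtain ⟨y, hy, z, hz, hyz⟩ := Submodule.mem_sup.1
    (show x ∈ LinearMap.ker (f ^ N) ⊔ LinearMap.range (f ^ N) by
      rw [hN2.sup_eq_top]; exact Submodule.mem_top)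
  refine ⟨y, ⟨N, hy⟩, ?_⟩
  -- the component in the range is in the kernel of γ
  let R := LinearMap.range (f ^ N)
  let K : Submodule F V := LinearMap.ker γ ⊓ R
  have hinj : ∀ u ∈ R, (f ^ N) u = 0 → u = 0 := by
    intro u hu hu0
    have : u ∈ LinearMap.ker (f ^ N) ⊓ LinearMap.range (f ^ N) := ⟨hu0, hu⟩
    rw [hN2.inf_eq_bot] at this
    exact this
  have hstab : ∀ u ∈ K, (f ^ N) u ∈ K := by
    rintro u ⟨hu1, hu2⟩
    refine ⟨?_, ⟨u, rfl⟩⟩
    rw [SetLike.mem_coe, LinearMap.mem_ker, hpow, LinearMap.mem_ker.1 hu1, map_zero]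
  let h : K →ₗ[F] K := (f ^ N).restrict hstab
  have hh : Function.Injective h := by
    rw [injective_iff_map_eq_zero]
    rintro ⟨u, hu⟩ hu0
    refine Subtype.ext (hinj u hu.2 ?_)
    exact congrArg Subtype.val hu0
  have hsurj : Function.Surjective h := LinearMap.surjective_of_injective hh
  have hgN : (g ^ N) (γ x) = 0 := by
    obtain ⟨m, rfl⟩ : ∃ m, N = m + 1 := ⟨N - 1, by omega⟩
    rw [pow_succ, Module.End.mul_apply, hx, map_zero]
  have hzK : (f ^ N) z ∈ K := by
    refine ⟨?_, ⟨z, rfl⟩⟩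
    have h1 : (f ^ N) x = (f ^ N) z := by
      rw [← hyz, map_add, LinearMap.mem_ker.1 hy, zero_add]
    rw [SetLike.mem_coe, LinearMap.mem_ker, ← h1, hpow, hgN]
  obtain ⟨⟨k, hk⟩, hk2⟩ := hsurj ⟨_, hzK⟩
  have hk3 : (f ^ N) k = (f ^ N) z := congrArg Subtype.val hk2
  have hkz : k = z := by
    rw [← sub_eq_zero]
    refine hinj _ (Submodule.sub_mem _ hk.2 hz) ?_
    rw [map_sub, hk3, sub_self]
  rw [← hyz, map_add, ← hkz, LinearMap.mem_ker.1 hk.1, add_zero]

end Pool.Agent.L0h15.OL
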