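import Pool.Agent.L0h15.OL.Transfer
import Pool.Agent.L0h15.OL.Finite
import Pool.Agent.L0h15.OL.Middle

/-!
# The height pairing on the liftable classes
-/

set_option autoImplicit false

namespace Pool.Agent.L0h15.OL

namespace ArithmeticCycles

variable (T : ArithmeticCycles)

/-- the classes on the model which are homologically trivial on the generic fibre -/
def homM (M : T.Model) : Submodule ℚ (T.ChM M) := (T.hom (T.gen M)).comap (T.res M)

end ArithmeticCycles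

/-- the Gillet-Soulé pairing of homologically trivial classes -/
structure GS (T : ArithmeticCycles) where
  logN : T.Place → ℝ
  pos : ∀ v, 0 < logN v
  gs : ∀ M, T.ChM M → T.ChM M → ℝ
  add : ∀ M z z' w, z ∈ T.homM M → z' ∈ T.homM M → w ∈ T.homM M →
    gs M (z + z') w = gs M z w + gs M z' w
  smul : ∀ M (r : ℚ) z w, z ∈ T.homM M → w ∈ T.homM M → gs M (r • z) w = r * gs M z w
  symm : ∀ M z w, z ∈ T.homM M → w ∈ T.homM M → gs M z w = gs M w z
  fib : ∀ M v y z, z ∈ T.homM M → gs M z (T.incl M v y) = logN v * T.int M v z y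
  push : ∀ {M N} (f : T.Mor M N) z w, z ∈ T.homM M → w ∈ T.homM N →
    gs N (T.push f z) w = gs M z (T.pull f w)

namespace GS

variable {T : ArithmeticCycles} (G : GS T)

theorem add_right (M : T.Model) (z w w' : T.ChM M) (hz : z ∈ T.homM M) (hw : w ∈ T.homM M)
    (hw' : w' ∈ T.homM M) : G.gs M z (w + w') = G.gs M z w + G.gs M z w' := by
  rw [G.symm M z (w + w') hz (add_mem hw hw'), G.add M w w' z hw hw' hz, G.symm M w z hw hz,
    G.symm M w' z hw' hz]

theorem smul_right (M : T.Model) (r : ℚ) (z w : T.ChM M) (hz : z ∈ T.homM M)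
    (hw : w ∈ T.homM M) : G.gs M z (r • w) = r * G.gs M z w := by
  rw [G.symm M z (r • w) hz (Submodule.smul_mem _ r hw), G.smul M r w z hw hz, G.symm M w z hw hz]

theorem zero_left (M : T.Model) (w : T.ChM M) (hw : w ∈ T.homM M) : G.gs M 0 w = 0 := by
  have h := G.smul M 0 0 w (zero_mem _) hw
  rw [zero_smul] at h
  simpa using h

theorem zero_right (M : T.Model) (z : T.ChM M) (hz : z ∈ T.homM M) : G.gs M z 0 = 0 := by
  rw [G.symm M z 0 hz (zero_mem _), G.zero_left M z hz]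

/-- the classes orthogonal to the closed fibres and homologically trivial -/
def O (M : T.Model) : Submodule ℚ (T.ChM M) := T.orth M ⊓ T.homM M

theorem ker_le_homM (M : T.Model) {x : T.ChM M} (hx : T.res M x = 0) : x ∈ T.homM M := by
  change T.res M x ∈ T.hom (T.gen M)
  rw [hx]
  exact zero_mem _

theorem gs_ker (M : T.Model) {w x : T.ChM M} (hw : w ∈ O M) (hx : T.res M x = 0) :
    G.gs M w x = 0 := by
  have h : x ∈ ⨆ v, LinearMap.range (T.incl M v) := by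
    rw [← T.ker_res]
    exact hx
  clear hx
  induction h using Submodule.iSup_induction' with
  | mem v x hx =>
    obtain ⟨y, rfl⟩ := hx
    rw [G.fib M v y w hw.2, hw.1 v y, Rat.cast_zero, mul_zero]
  | zero => exact G.zero_right M w hw.2
  | add x y hx' hy' hx hy =>
    have h1 : T.res M x = 0 := by
      have : x ∈ LinearMap.ker (T.res M) := by rw [T.ker_res]; exact hx'
      exact this
    have h2 : T.res M y = 0 := by
      have : y ∈ LinearMap.ker (T.res M) := by rw [T.ker_res]; exact hy'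
      exact this
    rw [G.add_right M w x y hw.2 (ker_le_homM M h1) (ker_le_homM M h2), hx, hy, add_zero]

theorem gs_congr_left (M : T.Model) {z z' w : T.ChM M} (hz' : z' ∈ O M)
    (hw : w ∈ O M) (h : T.res M z = T.res M z') : G.gs M z w = G.gs M z' w := by
  have h0 : T.res M (z - z') = 0 := by rw [map_sub, h, sub_self]
  have h1 : z = z' + (z - z') := by abel
  rw [h1, G.add M z' (z - z') w hz'.2 (ker_le_homM M h0) hw.2,
    G.symm M (z - z') w (ker_le_homM M h0) hw.2, G.gs_ker M hw h0, add_zero]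

theorem gs_congr (M : T.Model) {z z' w w' : T.ChM M} (hz' : z' ∈ O M)
    (hw : w ∈ O M) (hw' : w' ∈ O M) (h : T.res M z = T.res M z') (h' : T.res M w = T.res M w') :
    G.gs M z w = G.gs M z' w' := by
  rw [G.gs_congr_left M hz' hw h, G.symm M z' w hz'.2 hw.2, G.gs_congr_left M hw' hz' h',
    G.symm M w' z' hw'.2 hz'.2]

theorem mem_liftable_iff (M : T.Model) {c : T.Ch (T.gen M)} :
    c ∈ T.liftable (T.gen M) ↔ ∃ z ∈ O M, T.res M z = c := by
  rw [T.liftable_gen]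
  constructor
  · rintro ⟨h1, z, h2, rfl⟩
    exact ⟨z, ⟨h2, h1⟩, rfl⟩
  · rintro ⟨z, ⟨h2, h1⟩, rfl⟩
    exact ⟨h1, z, h2, rfl⟩

open Classical in
/-- the pairing on the generic fibre of a model -/
noncomputable def hgt (M : T.Model) (c c' : T.Ch (T.gen M)) : ℝ :=
  if h : (∃ z ∈ O M, T.res M z = c) ∧ (∃ z ∈ O M, T.res M z = c') then
    G.gs M h.1.choose h.2.choose else 0

theorem hgt_eq (M : T.Model) {z w : T.ChM M} (hz : z ∈ O M) (hw : w ∈ O M) :
    G.hgt M (T.res M z) (T.res M w) = G.gs M z w := by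
  have h : (∃ z' ∈ O M, T.res M z' = T.res M z) ∧ (∃ z' ∈ O M, T.res M z' = T.res M w) :=
    ⟨⟨z, hz, rfl⟩, ⟨w, hw, rfl⟩⟩
  rw [hgt, dif_pos h]
  exact G.gs_congr M hz h.2.choose_spec.1 hw h.1.choose_spec.2
    h.2.choose_spec.2

theorem hgt_symm (M : T.Model) {c c' : T.Ch (T.gen M)} (hc : c ∈ T.liftable (T.gen M))
    (hc' : c' ∈ T.liftable (T.gen M)) : G.hgt M c c' = G.hgt M c' c := by
  obtain ⟨z, hz, rfl⟩ := (mem_liftable_iff M).1 hc
  obtain ⟨w, hw, rfl⟩ := (mem_liftable_iff M).1 hc'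
  rw [G.hgt_eq M hz hw, G.hgt_eq M hw hz, G.symm M z w hz.2 hw.2]

theorem hgt_add (M : T.Model) {c d c' : T.Ch (T.gen M)} (hc : c ∈ T.liftable (T.gen M))
    (hd : d ∈ T.liftable (T.gen M)) (hc' : c' ∈ T.liftable (T.gen M)) :
    G.hgt M (c + d) c' = G.hgt M c c' + G.hgt M d c' := by
  obtain ⟨z, hz, rfl⟩ := (mem_liftable_iff M).1 hc
  obtain ⟨u, hu, rfl⟩ := (mem_liftable_iff M).1 hd
  obtain ⟨w, hw, rfl⟩ := (mem_liftable_iff M).1 hc'
  rw [← map_add, G.hgt_eq M (add_mem hz hu) hw, G.hgt_eq M hz hw, G.hgt_eq M hu hw,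
    G.add M z u w hz.2 hu.2 hw.2]

theorem hgt_smul (M : T.Model) (r : ℚ) {c c' : T.Ch (T.gen M)} (hc : c ∈ T.liftable (T.gen M))
    (hc' : c' ∈ T.liftable (T.gen M)) : G.hgt M (r • c) c' = r * G.hgt M c c' := by
  obtain ⟨z, hz, rfl⟩ := (mem_liftable_iff M).1 hc
  obtain ⟨w, hw, rfl⟩ := (mem_liftable_iff M).1 hc'
  rw [← map_smul, G.hgt_eq M (Submodule.smul_mem _ r hz) hw, G.hgt_eq M hz hw,
    G.smul M r z w hz.2 hw.2]

theorem pull_O {M N : T.Model} (f : T.Mor M N) {z : T.ChM N} (hz : z ∈ O N) :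
    T.pull f z ∈ O M := by
  refine ⟨T.orth_pull f hz.1, ?_⟩
  change T.res M (T.pull f z) ∈ T.hom (T.gen M)
  rw [T.res_pull]
  exact T.corr_hom (T.transpose (T.graph f)) _ hz.2

theorem push_O {M N : T.Model} (f : T.Mor M N) {z : T.ChM M} (hz : z ∈ O M) :
    T.push f z ∈ O N := by
  refine ⟨T.orth_push f hz.1, ?_⟩
  change T.res N (T.push f z) ∈ T.hom (T.gen N)
  rw [T.res_push]
  exact T.corr_hom (T.graph f) _ hz.2

theorem corr_model {M N : T.Model}
    {b : (T.Ch (T.gen M) →ₗ[ℚ] T.Ch (T.gen N)) × (T.Ch (T.gen N) →ₗ[ℚ] T.Ch (T.gen M))}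
    (hb : b ∈ T.Corr (T.gen M) (T.gen N)) {z : T.ChM M} {w : T.ChM N} (hz : z ∈ O M)
    (hw : w ∈ O N) : ∃ z' ∈ O N, ∃ w' ∈ O M, T.res N z' = b.1 (T.res M z) ∧
      T.res M w' = b.2 (T.res N w) ∧ G.gs N z' w = G.gs M z w' := by
  have h := T.alteration M N b hb
  clear hb
  induction h using Submodule.span_induction with
  | mem x hx =>
    obtain ⟨P, p, q, rfl⟩ := hx
    refine ⟨T.push q (T.pull p z), push_O q (pull_O p hz), T.push p (T.pull q w),
      push_O p (pull_O q hw), ?_, ?_, ?_⟩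
    · change _ = T.pushG q (T.pullG p (T.res M z))
      rw [T.res_push, T.res_pull]
    · change _ = T.pushG p (T.pullG q (T.res N w))
      rw [T.res_push, T.res_pull]
    · rw [G.push q _ w (pull_O p hz).2 hw.2, G.symm P _ _ (pull_O p hz).2 (pull_O q hw).2,
        ← G.push p _ z (pull_O q hw).2 hz.2, G.symm M _ _ (push_O p (pull_O q hw)).2 hz.2]
  | zero =>
    refine ⟨0, zero_mem _, 0, zero_mem _, ?_, ?_, ?_⟩
    · rw [map_zero]; rfl
    · rw [map_zero]; rfl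
    · rw [G.zero_left N w hw.2, G.zero_right M z hz.2]
  | add x y _ _ hx hy =>
    obtain ⟨z1, hz1, w1, hw1, h1, h2, h3⟩ := hx
    obtain ⟨z2, hz2, w2, hw2, h4, h5, h6⟩ := hy
    refine ⟨z1 + z2, add_mem hz1 hz2, w1 + w2, add_mem hw1 hw2, ?_, ?_, ?_⟩
    · rw [map_add, h1, h4]; rfl
    · rw [map_add, h2, h5]; rfl
    · rw [G.add N z1 z2 w hz1.2 hz2.2 hw.2, G.add_right M z w1 w2 hz.2 hw1.2 hw2.2, h3, h6]
  | smul r x _ hx =>
    obtain ⟨z1, hz1, w1, hw1, h1, h2, h3⟩ := hx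
    refine ⟨r • z1, Submodule.smul_mem _ r hz1, r • w1, Submodule.smul_mem _ r hw1, ?_, ?_, ?_⟩
    · rw [map_smul, h1]; rfl
    · rw [map_smul, h2]; rfl
    · rw [G.smul N r z1 w hz1.2 hw.2, G.smul_right M r z w1 hz.2 hw1.2, h3]

/-- adjunction for the models -/
theorem hgt_corr {M N : T.Model}
    {b : (T.Ch (T.gen M) →ₗ[ℚ] T.Ch (T.gen N)) × (T.Ch (T.gen N) →ₗ[ℚ] T.Ch (T.gen M))}
    (hb : b ∈ T.Corr (T.gen M) (T.gen N)) {c : T.Ch (T.gen M)} {c' : T.Ch (T.gen N)}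
    (hc : c ∈ T.liftable (T.gen M)) (hc' : c' ∈ T.liftable (T.gen N)) :
    G.hgt N (b.1 c) c' = G.hgt M c (b.2 c') := by
  obtain ⟨z, hz, rfl⟩ := (mem_liftable_iff M).1 hc
  obtain ⟨w, hw, rfl⟩ := (mem_liftable_iff N).1 hc'
  obtain ⟨z', hz', w', hw', h1, h2, h3⟩ := G.corr_model hb hz hw
  rw [← h1, ← h2, G.hgt_eq N hz' hw, G.hgt_eq M hz hw', h3]

/-- the chosen model which dominates a variety -/
noncomputable def cM (X : T.Var) : T.Model := (T.cover X).choose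

theorem cM_spec (X : T.Var) : ∃ a ∈ T.Corr X (T.gen (cM X)), ∃ b ∈ T.Corr (T.gen (cM X)) X,
    b.1 ∘ₗ a.1 = LinearMap.id ∧ a.2 ∘ₗ b.2 = LinearMap.id := by
  obtain ⟨-, a, ha, b, hb, h1, h2, -⟩ := (T.cover X).choose_spec
  exact ⟨a, ha, b, hb, h1, h2⟩

noncomputable def cA (X : T.Var) :
    (T.Ch X →ₗ[ℚ] T.Ch (T.gen (cM X))) × (T.Ch (T.gen (cM X)) →ₗ[ℚ] T.Ch X) :=
  (cM_spec X).choose

theorem cA_mem (X : T.Var) : cA X ∈ T.Corr X (T.gen (cM X)) := (cM_spec X).choose_spec.1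

noncomputable def cB (X : T.Var) :
    (T.Ch (T.gen (cM X)) →ₗ[ℚ] T.Ch X) × (T.Ch X →ₗ[ℚ] T.Ch (T.gen (cM X))) :=
  (cM_spec X).choose_spec.2.choose

theorem cB_mem (X : T.Var) : cB X ∈ T.Corr (T.gen (cM X)) X :=
  (cM_spec X).choose_spec.2.choose_spec.1

theorem cBA (X : T.Var) (c : T.Ch X) : (cB X).1 ((cA X).1 c) = c :=
  LinearMap.congr_fun (cM_spec X).choose_spec.2.choose_spec.2.1 c

theorem cAB (X : T.Var) (c : T.Ch X) : (cA X).2 ((cB X).2 c) = c :=
  LinearMap.congr_fun (cM_spec X).choose_spec.2.choose_spec.2.2 c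

/-- the height pairing -/
noncomputable def H (X : T.Var) (c c' : T.Ch X) : ℝ :=
  G.hgt (cM X) ((cA X).1 c) ((cB X).2 c')

theorem A_mem {X : T.Var} {c : T.Ch X} (hc : c ∈ T.liftable X) :
    (cA X).1 c ∈ T.liftable (T.gen (cM X)) := T.corr_liftable (cA_mem X) hc

theorem B_mem {X : T.Var} {c : T.Ch X} (hc : c ∈ T.liftable X) :
    (cB X).2 c ∈ T.liftable (T.gen (cM X)) :=
  T.corr_liftable (T.transpose (cB_mem X)) hc

theorem H_add (X : T.Var) {c d c' : T.Ch X} (hc : c ∈ T.liftable X) (hd : d ∈ T.liftable X)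
    (hc' : c' ∈ T.liftable X) : G.H X (c + d) c' = G.H X c c' + G.H X d c' := by
  rw [H, map_add, G.hgt_add (cM X) (A_mem hc) (A_mem hd) (B_mem hc')]
  rfl

theorem H_smul (X : T.Var) (r : ℚ) {c c' : T.Ch X} (hc : c ∈ T.liftable X)
    (hc' : c' ∈ T.liftable X) : G.H X (r • c) c' = r * G.H X c c' := by
  rw [H, map_smul, G.hgt_smul (cM X) r (A_mem hc) (B_mem hc')]
  rfl

theorem H_corr {X Y : T.Var} {f : (T.Ch Y →ₗ[ℚ] T.Ch X) × (T.Ch X →ₗ[ℚ] T.Ch Y)}
    (hf : f ∈ T.Corr Y X) {c : T.Ch Y} {c' : T.Ch X} (hc : c ∈ T.liftable Y)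
    (hc' : c' ∈ T.liftable X) : G.H X (f.1 c) c' = G.H Y c (f.2 c') := by
  have hG := T.comp_corr (cA_mem X) (T.comp_corr hf (cB_mem Y))
  have h := G.hgt_corr hG (A_mem hc) (B_mem hc')
  simp only [LinearMap.comp_apply] at h
  rw [cBA, cAB] at h
  exact h

theorem H_model (M : T.Model) {z w : T.ChM M} (hz : z ∈ O M) (hw : w ∈ O M) :
    G.H (T.gen M) (T.res M z) (T.res M w) = G.gs M z w := by
  have hz' : T.res M z ∈ T.liftable (T.gen M) := (mem_liftable_iff M).2 ⟨z, hz, rfl⟩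
  have hw' : T.res M w ∈ T.liftable (T.gen M) := (mem_liftable_iff M).2 ⟨w, hw, rfl⟩
  rw [H, ← G.hgt_corr (cB_mem (T.gen M)) (A_mem hz') hw', cBA, G.hgt_eq M hz hw]

theorem H_symm (X : T.Var) {c c' : T.Ch X} (hc : c ∈ T.liftable X) (hc' : c' ∈ T.liftable X) :
    G.H X c c' = G.H X c' c := by
  have h1 : G.H X c c' = G.H (T.gen (cM X)) ((cA X).1 c) ((cB X).2 c') := by
    rw [G.H_corr (cA_mem X) hc (B_mem hc'), cAB]
  have h2 : G.H (T.gen (cM X)) ((cB X).2 c') ((cA X).1 c) = G.H X c' c := by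
    rw [G.H_corr (T.transpose (cB_mem X)) hc' (A_mem hc)]
    change G.H X c' ((cB X).1 ((cA X).1 c)) = _
    rw [cBA]
  rw [h1, ← h2]
  obtain ⟨z, hz, hz1⟩ := (mem_liftable_iff _).1 (A_mem hc)
  obtain ⟨w, hw, hw1⟩ := (mem_liftable_iff _).1 (B_mem hc')
  rw [← hz1, ← hw1, G.H_model _ hz hw, G.H_model _ hw hz, G.symm _ z w hz.2 hw.2]

include G in
theorem int_symm (M : T.Model) (v : T.Place) (y w : T.Fib M v) :
    T.int M v (T.incl M v y) w = T.int M v (T.incl M v w) y := by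
  have hy : T.incl M v y ∈ T.homM M := ker_le_homM M (T.res_incl M v y)
  have hw : T.incl M v w ∈ T.homM M := ker_le_homM M (T.res_incl M v w)
  have h := G.symm M _ _ hy hw
  rw [G.fib M v w _ hy, G.fib M v y _ hw] at h
  have h1 := mul_left_cancel₀ (G.pos v).ne' h
  exact_mod_cast h1

/-- the question is equivalent to the existence of the height pairing, computed with one orthogonal
lift -/
theorem question_iff_pairing (M : T.Model) : (∀ i, T.Question M i) ↔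
    ∃ h : T.Ch (T.gen M) → T.Ch (T.gen M) → ℝ, ∀ z ∈ O M, ∀ w ∈ T.homM M,
      h (T.res M z) (T.res M w) = G.gs M z w := by
  rw [T.question_iff]
  constructor
  · intro hQ
    refine ⟨G.hgt M, fun z hz w hw => ?_⟩
    obtain ⟨w', hw', h1⟩ := (mem_liftable_iff M).1 (hQ hw)
    have h0 : T.res M (w - w') = 0 := by rw [map_sub, h1, sub_self]
    have h2 : w = w' + (w - w') := by abel
    have h3 : G.gs M z w = G.gs M z w' := by
      conv_lhs => rw [h2]
      rw [G.add_right M z w' (w - w') hz.2 hw'.2 (ker_le_homM M h0), G.gs_ker M hz h0, add_zero]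
    rw [h3, ← h1, G.hgt_eq M hz hw']
  · rintro ⟨h, hh⟩ c hc
    obtain ⟨w, rfl⟩ := T.res_surjective M c
    rw [T.liftable_gen]
    refine ⟨hc, (T.mem_lifts_iff M hc).2 ?_⟩
    intro v y hy
    have hz : T.incl M v y ∈ O M := by
      refine ⟨fun v' u => ?_, ker_le_homM M (T.res_incl M v y)⟩
      by_cases hv : v' = v
      · subst hv
        rw [G.int_symm M v' y u]
        exact hy u
      · exact T.int_disjoint M v' v hv y u
    have h1 := hh _ hz w hc
    have h2 := hh 0 (zero_mem _) w hc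
    rw [map_zero, G.zero_left M w hc] at h2
    rw [T.res_incl, h2] at h1
    have h3 : G.gs M w (T.incl M v y) = 0 := by
      rw [G.symm M w _ hc hz.2, ← h1]
    rw [G.fib M v y w hc] at h3
    have h4 := (mul_eq_zero.1 h3).resolve_left (G.pos v).ne'
    exact_mod_cast h4

/-- uniqueness -/
theorem H_unique (S : Set T.Model) (hS : ∀ X, T.Dominates S X)
    (h h' : ∀ X, T.Ch X → T.Ch X → ℝ)
    (h1 : ∀ M ∈ S, ∀ z ∈ O M, ∀ w ∈ O M, h (T.gen M) (T.res M z) (T.res M w) =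
      h' (T.gen M) (T.res M z) (T.res M w))
    (h2 : ∀ {X Y : T.Var} (f), f ∈ T.Corr Y X → ∀ c ∈ T.liftable Y, ∀ c' ∈ T.liftable X,
      h X (f.1 c) c' = h Y c (f.2 c'))
    (h3 : ∀ {X Y : T.Var} (f), f ∈ T.Corr Y X → ∀ c ∈ T.liftable Y, ∀ c' ∈ T.liftable X,
      h' X (f.1 c) c' = h' Y c (f.2 c')) (X : T.Var) {c c' : T.Ch X}
    (hc : c ∈ T.liftable X) (hc' : c' ∈ T.liftable X) : h X c c' = h' X c c' := by
  obtain ⟨M, hM, -, a, ha, b, hb, hba, -⟩ := hS X
  have h4 : b.1 (a.1 c) = c := LinearMap.congr_fun hba c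
  have h5 : a.1 c ∈ T.liftable (T.gen M) := T.corr_liftable ha hc
  have h6 : b.2 c' ∈ T.liftable (T.gen M) := T.corr_liftable (T.transpose hb) hc'
  rw [← h4, h2 b hb _ h5 c' hc', h3 b hb _ h5 c' hc']
  obtain ⟨z, hz, hz1⟩ := (mem_liftable_iff _).1 h5
  obtain ⟨w, hw, hw1⟩ := (mem_liftable_iff _).1 h6
  rw [← hz1, ← hw1]
  exact h1 M hM z hz w hw

end GS

end Pool.Agent.L0h15.OL
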