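import Pool.Agent.L0h15.OL.AxH

/-!
# The `ℓ`-adic cohomology of the fibres of a model
-/

set_option autoImplicit false

namespace Pool.Agent.L0h15.OL

/-- a vector space over `F` -/
structure VS (F : Type) [Field F] where
  /-- the elements -/
  carrier : Type
  [grp : AddCommGroup carrier]
  [mod : Module F carrier]

attribute [instance] VS.grp VS.mod

instance (F : Type) [Field F] : CoeSort (VS F) Type := ⟨VS.carrier⟩

namespace Cycles

variable (T : Cycles)

/-- The `ℓ`-adic cohomology groups of degree `2 i`, with the twist `i`, for the model `M` of dimension
`d + 1` and the finite place `v` (`ℓ` is different from the residue characteristic), with their known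
properties. -/
structure LAdic (M : T.Model) (v : T.Place) (i : ℤ) where
  /-- the field of coefficients `ℚ_ℓ` -/
  F : Type
  [fld : Field F]
  [chr : CharZero F]
  /-- the cohomology of the geometric closed fibre at `v`, which is that of the model over the maximal
  unramified extension of the ring of integers of the local field -/
  HX : VS F
  /-- the homology of degree `2 (d + 1 - i)` of the geometric closed fibre, which is the cohomology of
  the model with support in the closed fibre -/
  HF : VS F
  /-- the cohomology of the generic fibre over the maximal unramified extension of the local field -/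
  HK : VS F
  /-- the cohomology of the geometric generic fibre -/
  HG : VS F
  finite : FiniteDimensional F HF
  /-- the Frobenius -/
  frobX : HX →ₗ[F] HX
  /-- the Frobenius -/
  frobF : HF →ₗ[F] HF
  /-- the Frobenius -/
  frobK : HK →ₗ[F] HK
  /-- the map from the cohomology with support -/
  gysin : HF →ₗ[F] HX
  /-- the restriction to the generic fibre -/
  spec : HX →ₗ[F] HK
  /-- the restriction to the geometric generic fibre -/
  geom : HK →ₗ[F] HG
  gysin_frob : ∀ h, gysin (frobF h) = frobX (gysin h)
  spec_frob : ∀ h, spec (frobX h) = frobK (spec h)
  /-- the localisation sequence -/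
  exact : ∀ h, spec h = 0 → ∃ g, gysin g = h
  /-- the class of the component of codimension `i` -/
  cl : T.ChM M → HX
  /-- the class of the component of codimension `i` of a cycle in the closed fibre -/
  clF : T.Fib M v → HF
  cl_frob : ∀ z, frobX (cl z) = cl z
  cl_incl : ∀ y, cl (ap (T.incl M v) y) = gysin (clF y)
  cl_hom : ∀ z, T.HomTriv M z → geom (spec (cl z)) = 0
  /-- the intersection number with a cycle `w` in the closed fibre is the degree of the cap product
  with the class of `w` -/
  int_cl : ∀ w, ∃ φ : HX →ₗ[F] F, ∀ z,
    ((ev (T.int M v) (ap (T.codimM M i) z) w : ℚ) : F) = φ (cl z)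

attribute [instance] LAdic.fld LAdic.chr LAdic.finite

variable {T}

/-- There is no nonzero Frobenius invariant in the kernel `H^{2i-1}(geometric generic fibre)_I (i-1)` of
the map from the cohomology of the generic fibre over the maximal unramified extension to that of the
geometric generic fibre. This is a part of the weight-monodromy conjecture for `H^{2i-1}`. -/
def LAdic.Weight {M : T.Model} {v : T.Place} {i : ℤ} (H : T.LAdic M v i) : Prop :=
  ∀ h, H.geom h = 0 → H.frobK h = h → h = 0

/-- The generalised eigenspace of the Frobenius for the eigenvalue `1` in the homology of the closed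
fibre is generated by classes of cycles. This is Tate's conjecture (with the semisimplicity of the
eigenvalue `1`) for the cycles of codimension `i - 1` on the components of the closed fibre. -/
def LAdic.Tate {M : T.Model} {v : T.Place} {i : ℤ} (H : T.LAdic M v i) : Prop :=
  ∀ g, (∃ N : ℕ, (fun h => H.frobF h - h)^[N] g = 0) → g ∈ Submodule.span H.F (Set.range H.clF)

variable (T)

/-- these two properties for all finite places -/
def WeightTate (M : T.Model) (i : ℤ) : Prop :=
  ∀ v, ∃ H : T.LAdic M v i, H.Weight ∧ H.Tate

end Cycles

end Pool.Agent.L0h15.OL
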