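import Pool.Agent.L0h15.OL.LAdic
import Pool.Agent.L0h15.OL.Conv
import Pool.Agent.L0h15.OL.Fitting

/-!
# Orthogonal lifts from weights and Tate's conjecture
-/

set_option autoImplicit false

namespace Pool.Agent.L0h15.OL

namespace Cycles

variable {T : Cycles}

/-- the class of a homologically trivial cycle is a combination of classes of cycles in the fibre -/
theorem LAdic.mem_span {M : T.Model} {v : T.Place} {i : ℤ} (H : T.LAdic M v i) (hW : H.Weight)
    (hT : H.Tate) {z : T.ChM M} (hz : T.HomTriv M z) :
    H.cl z ∈ Submodule.span H.F (Set.range fun y => H.cl (ap (T.incl M v) y)) := by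
  have h1 : H.spec (H.cl z) = 0 := by
    refine hW _ (H.cl_hom z hz) ?_
    rw [← H.spec_frob, H.cl_frob]
  obtain ⟨g, hg⟩ := H.exact _ h1
  obtain ⟨y, ⟨N, hN⟩, hy⟩ := fitting_lift (H.frobF - LinearMap.id) (H.frobX - LinearMap.id)
    H.gysin (fun x => by
      rw [LinearMap.sub_apply, LinearMap.sub_apply, map_sub, H.gysin_frob, LinearMap.id_apply,
        LinearMap.id_apply]) g (by
      rw [LinearMap.sub_apply, LinearMap.id_apply, hg, H.cl_frob, sub_self])
  have h2 : y ∈ Submodule.span H.F (Set.range H.clF) := by
    refine hT y ⟨N, ?_⟩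
    rw [Module.End.pow_apply] at hN
    exact hN
  rw [← hg, ← hy]
  have h3 : Submodule.span H.F (Set.range H.clF) ≤
      (Submodule.span H.F (Set.range fun y => H.cl (ap (T.incl M v) y))).comap H.gysin := by
    rw [Submodule.span_le]
    rintro _ ⟨u, rfl⟩
    refine Submodule.subset_span ⟨u, ?_⟩
    exact H.cl_incl u
  exact h3 h2

/-- the question for a model with these two properties -/
theorem question_of_weightTate (hV : T.Varieties) (hM : T.Models) (A : T.Functoriality)
    {M : T.Model} {i : ℤ} (h : T.WeightTate M i) : T.Question M i := by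
  intro c hc hi
  obtain ⟨z, rfl⟩ := hM.res_surjective M c
  refine ((toD hV hM A).hasLift_iff M i hi).2 ?_
  refine ((toD hV hM A).mem_lifts_iff M hc).2 ?_
  have key : ∀ (v : T.Place) (w : T.Fib M v), (∀ y, ev (T.int M v) (ap (T.incl M v) y) w = 0) →
      ev (T.int M v) z w = 0 := by
    intro v w hw
    obtain ⟨H, hW, hT⟩ := h v
    -- replace the class by its component of codimension `i`
    have h1 : ev (T.int M v) z w = ev (T.int M v) (ap (T.codimM M i) z) w := by
      refine (toD hV hM A).int_radical M ?_ hw
      exact hi.symm.trans (hM.res_codim M i z).symm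
    rw [h1]
    obtain ⟨φ, hφ⟩ := H.int_cl w
    have h2 : Submodule.span H.F (Set.range fun y => H.cl (ap (T.incl M v) y)) ≤
        LinearMap.ker φ := by
      rw [Submodule.span_le]
      rintro _ ⟨y, rfl⟩
      rw [SetLike.mem_coe, LinearMap.mem_ker, ← hφ]
      have h3 : ev (T.int M v) (ap (T.codimM M i) (ap (T.incl M v) y)) w = 0 := by
        refine (toD hV hM A).int_ker_radical M ?_ hw
        refine (hM.res_codim M i _).trans ?_
        have h4 : ap (T.res M) (ap (T.incl M v) y) = 0 := (toD hV hM A).res_incl M v y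
        rw [h4]
        exact map_zero (show (T.Ch (T.gen M)) →ₗ[ℚ] (T.Ch (T.gen M)) from T.codim (T.gen M) i)
      rw [h3, Rat.cast_zero]
    have h6 := h2 (H.mem_span hW hT hc)
    rw [LinearMap.mem_ker, ← hφ] at h6
    exact_mod_cast h6
  exact fun v w hw => key v w hw

/-- the varieties which are retracts of the generic fibre of such a model -/
theorem liftable_of_weightTate (hV : T.Varieties) (hM : T.Models) (A : T.Functoriality)
    {M : T.Model} {i : ℤ} (h : T.WeightTate M i) {X : T.Var} (hX : T.Retract X (T.gen M) 0)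
    {c : T.Ch X} (hc : inn (T.hom X) c) (hi : ap (T.codim X i) c = c) : inn (T.liftable X) c := by
  obtain ⟨a, a', b, b', ha, hb, h1, h2, h3⟩ := hX
  have hc1 : inn (T.hom (T.gen M)) (ap a c) := hV.corr_hom a a' ha c hc
  have hi1 : ap (T.codim (T.gen M) i) (ap a c) = ap a c := by
    have h4 := h3 i c
    rw [add_zero, hi] at h4
    exact h4
  have h5 := question_of_weightTate hV hM A h (ap a c) hc1 hi1
  have h6 : (show (toD hV hM A).Ch (T.gen M) from ap a c) ∈ (toD hV hM A).liftable (T.gen M) :=
    ((toD hV hM A).hasLift_iff_liftable M i hc1 hi1).1 h5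
  have h7 := (toD hV hM A).corr_liftable (b := (b, b')) hb h6
  have h8 : ap b (ap a c) = c := h1 c
  refine (toD_liftable hV hM A X c).2 ?_
  have h9 : (show (toD hV hM A).Ch X from ap b (ap a c)) ∈ (toD hV hM A).liftable X := h7
  rwa [h8] at h9

theorem question_of_retract (hV : T.Varieties) (hM : T.Models) (A : T.Functoriality)
    {M : T.Model} {i : ℤ} (h : T.WeightTate M i) {N : T.Model}
    (hN : T.Retract (T.gen N) (T.gen M) 0) : T.Question N i := by
  intro c hc hi
  refine ((toD hV hM A).hasLift_iff_liftable N i hc hi).2 ?_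
  exact (toD_liftable hV hM A (T.gen N) c).1 (liftable_of_weightTate hV hM A h hN hc hi)

end Cycles

end Pool.Agent.L0h15.OL
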