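import Pool.Agent.L0h15.OL.Defs

/-!
# The liftable classes: correspondences, independence of the model, homogeneous lifts
-/

set_option autoImplicit false

namespace Pool.Agent.L0h15.OL

namespace ArithmeticCycles

variable (T : ArithmeticCycles)

theorem mem_orth {M : T.Model} {z : T.ChM M} : z ∈ T.orth M ↔ ∀ v w, T.int M v z w = 0 :=
  Iff.rfl

theorem orth_pull {M N : T.Model} (f : T.Mor M N) {z : T.ChM N} (hz : z ∈ T.orth N) :
    T.pull f z ∈ T.orth M := fun v w => by rw [T.int_pull, hz]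

theorem orth_push {M N : T.Model} (f : T.Mor M N) {z : T.ChM M} (hz : z ∈ T.orth M) :
    T.push f z ∈ T.orth N := fun v w => by rw [T.int_push, hz]

/-- the correspondences between generic fibres of models preserve the classes with an orthogonal
lift -/
theorem corr_lifts {M N : T.Model}
    {b : (T.Ch (T.gen M) →ₗ[ℚ] T.Ch (T.gen N)) × (T.Ch (T.gen N) →ₗ[ℚ] T.Ch (T.gen M))}
    (hb : b ∈ T.Corr (T.gen M) (T.gen N)) {c : T.Ch (T.gen M)} (hc : c ∈ T.lifts M) :
    b.1 c ∈ T.lifts N := by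
  obtain ⟨z, hz, rfl⟩ := hc
  have h := T.alteration M N b hb
  clear hb
  induction h using Submodule.span_induction with
  | mem x hx =>
    obtain ⟨P, p, q, rfl⟩ := hx
    refine ⟨T.push q (T.pull p z), T.orth_push q (T.orth_pull p hz), ?_⟩
    change _ = T.pushG q (T.pullG p (T.res M z))
    rw [T.res_push, T.res_pull]
  | zero => exact zero_mem _
  | add x y _ _ hx hy => exact add_mem hx hy
  | smul r x _ hx => exact Submodule.smul_mem _ r hx

theorem corr_liftable {X Y : T.Var} {b : (T.Ch Y →ₗ[ℚ] T.Ch X) × (T.Ch X →ₗ[ℚ] T.Ch Y)}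
    (hb : b ∈ T.Corr Y X) {c : T.Ch Y} (hc : c ∈ T.liftable Y) : b.1 c ∈ T.liftable X := by
  induction hc using Submodule.span_induction with
  | mem x hx =>
    obtain ⟨M, g, hg, c', hc', rfl⟩ := hx
    exact Submodule.subset_span ⟨M, _, T.comp_corr hb hg, c', hc', rfl⟩
  | zero => rw [map_zero]; exact zero_mem _
  | add x y _ _ hx hy => rw [map_add]; exact add_mem hx hy
  | smul r x _ hx => rw [map_smul]; exact Submodule.smul_mem _ r hx

theorem lifts_le_liftable (M : T.Model) : T.hom (T.gen M) ⊓ T.lifts M ≤ T.liftable (T.gen M) :=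
  fun c hc => Submodule.subset_span ⟨M, _, T.one_corr _, c, hc, rfl⟩

/-- the classes with an orthogonal lift to a model do not depend on the model -/
theorem liftable_gen (M : T.Model) : T.liftable (T.gen M) = T.hom (T.gen M) ⊓ T.lifts M := by
  refine le_antisymm ?_ (T.lifts_le_liftable M)
  rw [liftable, Submodule.span_le]
  rintro _ ⟨N, b, hb, c', hc', rfl⟩
  exact ⟨T.corr_hom hb c' hc'.1, T.corr_lifts hb hc'.2⟩

theorem liftable_le_hom (X : T.Var) : T.liftable X ≤ T.hom X := by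
  rw [liftable, Submodule.span_le]
  rintro _ ⟨N, b, hb, c', hc', rfl⟩
  exact T.corr_hom hb c' hc'.1

/-- homogeneous lifts -/
theorem hasLift_iff (M : T.Model) (i : ℤ) {c : T.Ch (T.gen M)}
    (hi : T.codim (T.gen M) i c = c) : T.HasLift M i c ↔ c ∈ T.lifts M := by
  constructor
  · rintro ⟨z, hz, rfl, h⟩
    refine ⟨z, fun v w => ?_, rfl⟩
    rw [← hz, T.int_codim]
    exact h v _ (T.codimF_idem M v _ w)
  · rintro ⟨z, hz, rfl⟩
    refine ⟨T.codimM M i z, T.codimM_idem M i z, ?_, fun v w _ => ?_⟩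
    · rw [T.res_codim, hi]
    · rw [T.int_codim]
      exact hz v _

theorem hasLift_iff_liftable (M : T.Model) (i : ℤ) {c : T.Ch (T.gen M)} (hc : c ∈ T.hom (T.gen M))
    (hi : T.codim (T.gen M) i c = c) : T.HasLift M i c ↔ c ∈ T.liftable (T.gen M) := by
  rw [T.hasLift_iff M i hi, T.liftable_gen]
  exact ⟨fun h => ⟨hc, h⟩, fun h => h.2⟩

theorem liftable_codim (M : T.Model) (i : ℤ) {c : T.Ch (T.gen M)} (hc : c ∈ T.liftable (T.gen M)) :
    T.codim (T.gen M) i c ∈ T.liftable (T.gen M) := by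
  rw [T.liftable_gen] at hc ⊢
  refine ⟨T.hom_codim _ i c hc.1, ?_⟩
  obtain ⟨z, hz, rfl⟩ := hc.2
  exact ⟨T.codimM M i z, fun v w => by rw [T.int_codim]; exact hz v _, T.res_codim M i z⟩

/-- the question for all codimensions -/
theorem question_iff (M : T.Model) : (∀ i, T.Question M i) ↔ T.hom (T.gen M) ≤ T.liftable (T.gen M) := by
  constructor
  · intro h c hc
    rw [← T.codim_sum (T.gen M) c]
    refine Submodule.sum_mem _ fun i _ => ?_
    have h1 : T.codim (T.gen M) i c ∈ T.hom (T.gen M) := T.hom_codim _ _ c hc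
    have h2 : T.codim (T.gen M) i (T.codim (T.gen M) i c) = T.codim (T.gen M) i c := by
      rw [T.codim_codim, if_pos rfl]
    exact (T.hasLift_iff_liftable M i h1 h2).1 (h i _ h1 h2)
  · intro h i c hc hi
    exact (T.hasLift_iff_liftable M i hc hi).2 (h hc)

/-- a class of another variety, through a retraction -/
theorem liftable_of_retract {X Y : T.Var} {a : (T.Ch X →ₗ[ℚ] T.Ch Y) × (T.Ch Y →ₗ[ℚ] T.Ch X)}
    {b : (T.Ch Y →ₗ[ℚ] T.Ch X) × (T.Ch X →ₗ[ℚ] T.Ch Y)} (hb : b ∈ T.Corr Y X)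
    (hba : b.1 ∘ₗ a.1 = LinearMap.id) {c : T.Ch X} (h : a.1 c ∈ T.liftable Y) :
    c ∈ T.liftable X := by
  have h1 := T.corr_liftable hb h
  have h2 : b.1 (a.1 c) = c := LinearMap.congr_fun hba c
  rwa [h2] at h1

end ArithmeticCycles

end Pool.Agent.L0h15.OL
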